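import Pool.Agent.C75W.Im

/-! Packed two's complement arithmetic (Nat words modulo a power of 2): general lemmas. -/

namespace Pool.Agent.Helper17.PAK

/-- the word `n` represents the integer `x` modulo `M`. -/
def Rep (M : ℕ) (n : ℕ) (x : ℤ) : Prop := (n : ℤ) ≡ x [ZMOD (M : ℤ)]

theorem Rep.add {M n m : ℕ} {x y : ℤ} (hx : Rep M n x) (hy : Rep M m y) :
    Rep M (n + m) (x + y) := by
  unfold Rep at *
  push_cast
  exact hx.add hy

theorem Rep.mul {M n m : ℕ} {x y : ℤ} (hx : Rep M n x) (hy : Rep M m y) :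
    Rep M (n * m) (x * y) := by
  unfold Rep at *
  push_cast
  exact hx.mul hy

theorem Rep.neg {M n : ℕ} {x : ℤ} (hx : Rep M n x) (h : n ≤ M) :
    Rep M (M - n) (-x) := by
  unfold Rep at *
  rw [Nat.cast_sub h]
  have h1 : ((M : ℤ) - n) ≡ (0 - n) [ZMOD (M : ℤ)] :=
    Int.ModEq.sub_right _ (by simp [Int.ModEq])
  rw [zero_sub] at h1
  exact h1.trans hx.neg

theorem Rep.sub {M n m : ℕ} {x y : ℤ} (hx : Rep M n x) (hy : Rep M m y) (h : m ≤ n) :
    Rep M (n - m) (x - y) := by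
  unfold Rep at *
  rw [Nat.cast_sub h]
  exact hx.sub hy

theorem Rep.mod {M n : ℕ} {x : ℤ} (hx : Rep M n x) : Rep M (n % M) x := by
  unfold Rep at *
  rw [Int.natCast_mod]
  exact (Int.mod_modEq _ _).trans hx

theorem Rep.ofMod {M n : ℕ} {x : ℤ} (hx : Rep M (n % M) x) : Rep M n x := by
  unfold Rep at *
  rw [Int.natCast_mod] at hx
  exact (Int.mod_modEq _ _).symm.trans hx

theorem Rep.nat (M n : ℕ) : Rep M n (n : ℤ) := by
  unfold Rep; exact Int.ModEq.refl _

/-- a reduced word with a small non-negative value is the value. -/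
theorem Rep.eq_of_lt {M n : ℕ} {x : ℤ} (hx : Rep M n x) (hn : n < M) (h0 : 0 ≤ x)
    (h1 : x < M) : (n : ℤ) = x := by
  unfold Rep Int.ModEq at hx
  rw [Int.emod_eq_of_lt (by positivity) (by exact_mod_cast hn), Int.emod_eq_of_lt h0 h1] at hx
  exact hx

theorem Rep.mod_eq {M n : ℕ} {x : ℤ} (hx : Rep M n x) (hM : 0 < M) (h0 : 0 ≤ x)
    (h1 : x < M) : ((n % M : ℕ) : ℤ) = x :=
  hx.mod.eq_of_lt (Nat.mod_lt _ hM) h0 h1

/-- packed sum of `n` digits in base `B`. -/
def pk (B : ℕ) (e : ℕ → ℤ) : ℕ → ℤ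
  | 0 => 0
  | n + 1 => pk B e n + e n * (B : ℤ) ^ n

theorem pk_add (B : ℕ) (e f : ℕ → ℤ) (n : ℕ) :
    pk B e n + pk B f n = pk B (fun i => e i + f i) n := by
  induction n with
  | zero => simp [pk]
  | succ n ih => simp only [pk]; rw [← ih]; ring

theorem pk_sub (B : ℕ) (e f : ℕ → ℤ) (n : ℕ) :
    pk B e n - pk B f n = pk B (fun i => e i - f i) n := by
  induction n with
  | zero => simp [pk]
  | succ n ih => simp only [pk]; rw [← ih]; ring

theorem pk_smul (B : ℕ) (a : ℤ) (e : ℕ → ℤ) (n : ℕ) :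
    a * pk B e n = pk B (fun i => a * e i) n := by
  induction n with
  | zero => simp [pk]
  | succ n ih => simp only [pk]; rw [← ih]; ring

theorem pk_nonneg (B : ℕ) (e : ℕ → ℤ) (n : ℕ) (h : ∀ i < n, 0 ≤ e i) : 0 ≤ pk B e n := by
  induction n with
  | zero => simp [pk]
  | succ n ih =>
      simp only [pk]
      have h1 := ih (fun i hi => h i (Nat.lt_succ_of_lt hi))
      have h2 := h n (Nat.lt_succ_self n)
      positivity

theorem pk_lt (B : ℕ) (e : ℕ → ℤ) (n : ℕ) (h : ∀ i < n, e i < B) : pk B e n < (B : ℤ) ^ n := by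
  induction n with
  | zero => simp [pk]
  | succ n ih =>
      simp only [pk]
      have h1 := ih (fun i hi => h i (Nat.lt_succ_of_lt hi))
      have h2 := h n (Nat.lt_succ_self n)
      have h3 : e n * (B : ℤ) ^ n ≤ ((B : ℤ) - 1) * (B : ℤ) ^ n :=
        mul_le_mul_of_nonneg_right (by linarith) (by positivity)
      have h4 : (B : ℤ) ^ (n + 1) = (B : ℤ) * (B : ℤ) ^ n := by ring
      rw [h4]
      linarith

theorem pk_split (B : ℕ) (e : ℕ → ℤ) (k n : ℕ) :
    pk B e (k + n) = pk B e k + (B : ℤ) ^ k * pk B (fun i => e (k + i)) n := by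
  induction n with
  | zero => simp [pk]
  | succ n ih =>
      rw [← Nat.add_assoc]
      simp only [pk]
      rw [ih]
      ring

theorem pk_head (B : ℕ) (e : ℕ → ℤ) (n : ℕ) :
    pk B e (n + 1) = e 0 + (B : ℤ) * pk B (fun i => e (1 + i)) n := by
  have h := pk_split B e 1 n
  rw [Nat.add_comm] at h
  rw [h]
  simp [pk]

/-- digit extraction. -/
theorem pk_digit (B : ℕ) (hB : 0 < B) (e : ℕ → ℤ) (n k : ℕ) (hk : k < n)
    (h0 : ∀ i < n, 0 ≤ e i) (h1 : ∀ i < n, e i < B) :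
    pk B e n / (B : ℤ) ^ k % (B : ℤ) = e k := by
  obtain ⟨m, rfl⟩ : ∃ m, n = k + (m + 1) := ⟨n - k - 1, by omega⟩
  rw [pk_split]
  have hBz : (0 : ℤ) < (B : ℤ) := by exact_mod_cast hB
  have hBk : (0 : ℤ) < (B : ℤ) ^ k := by positivity
  have hlt : pk B e k < (B : ℤ) ^ k := pk_lt B e k (fun i hi => h1 i (by omega))
  have hnn : 0 ≤ pk B e k := pk_nonneg B e k (fun i hi => h0 i (by omega))
  rw [Int.add_mul_ediv_left _ _ hBk.ne', Int.ediv_eq_zero_of_lt hnn hlt, zero_add, pk_head]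
  rw [Int.add_mul_emod_self_left]
  exact Int.emod_eq_of_lt (h0 k (by omega)) (h1 k (by omega))

/-- digit extraction from a word. -/
theorem Rep.digit {M B X : ℕ} (hB : 0 < B) {e : ℕ → ℤ} {n k : ℕ} (hk : k < n)
    (hM : B ^ n ≤ M) (h0 : ∀ i < n, 0 ≤ e i) (h1 : ∀ i < n, e i < B)
    (hX : Rep M X (pk B e n)) : ((X % M / B ^ k % B : ℕ) : ℤ) = e k := by
  have hMp : 0 < M := lt_of_lt_of_le (by positivity) hM
  have h2 : pk B e n < (M : ℤ) :=
    lt_of_lt_of_le (pk_lt B e n h1) (by exact_mod_cast hM)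
  have h3 := hX.mod_eq hMp (pk_nonneg B e n h0) h2
  rw [← pk_digit B hB e n k hk h0 h1, ← h3]
  push_cast
  rfl

end Pool.Agent.Helper17.PAK
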