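import Pool.Agent.Helper86.CX.Ker
import Pool.Agent.Helper86.CX.Fmt
import Pool.Agent.Helper17.C75.Pak

/-! Row KPD of the kernel checker for MP_c75db0: constants, sign tests, minors. -/

set_option autoImplicit false
namespace Pool.Agent.Helper17.PAK

open Pool.Agent.Helper86.CX

theorem MM_eq : MM = 2 ^ 2304 := by decide +kernel
theorem NG_eq : NG = 2 ^ 2304 - 1 := by decide +kernel
theorem HM_eq : HM = 2 ^ 2303 - 2 := by decide +kernel
theorem M2_eq : M2 = 2 ^ 1152 := by decide +kernel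
theorem N2_eq : N2 = 2 ^ 1152 - 1 := by decide +kernel
theorem H2_eq : H2 = 2 ^ 1151 - 2 := by decide +kernel
theorem D2_eq : D2 = 2 ^ 1152 - 2 ^ 255 := by decide +kernel
theorem S256_eq : S256 = 2 ^ 256 := by decide +kernel
theorem C31_eq : C31 = 2 ^ 2304 - 2 ^ 31 := by decide +kernel

theorem MM_pos : 0 < MM := by decide +kernel
theorem M2_pos : 0 < M2 := by decide +kernel

/-- `-1` -/
theorem rep_NG : Rep MM NG (-1) := by
  unfold Rep Int.ModEq
  decide +kernel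

theorem rep_N2 : Rep M2 N2 (-1) := by
  unfold Rep Int.ModEq
  decide +kernel

theorem rep_D2 : Rep M2 D2 (-2 ^ 255) := by
  unfold Rep Int.ModEq
  decide +kernel

theorem rep_C31 : Rep MM C31 (-2 ^ 31) := by
  unfold Rep Int.ModEq
  decide +kernel

theorem hM2 : (2:ℤ) ^ 1151 ≤ (M2 : ℤ) - (H2 : ℤ) - 2 := by decide +kernel
theorem hMM : (2:ℤ) ^ 2303 ≤ (MM : ℤ) - (HM : ℤ) - 2 := by decide +kernel

theorem andB_iff {x y : Bool} : andB x y = true ↔ x = true ∧ y = true := by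
  cases x <;> cases y <;> simp [andB]

/-- sign test, general -/
theorem pos_of_ble {M N H : ℕ} (hM : 0 < M) (hN : Rep M N (-1)) {x : ℕ}
    {z : ℤ} (hx : Rep M x z) (hz : |z| ≤ M - H - 2)
    (h : Nat.ble (Nat.mod (Nat.add x N) M) H = true) : 0 < z := by
  have h1 : (x + N) % M ≤ H := Nat.le_of_ble_eq_true h
  have h2 : Rep M ((x + N) % M) (z + -1) := (hx.add hN).mod
  by_contra h3
  have h3 : z ≤ 0 := not_lt.1 h3
  have h4 := abs_le.1 hz
  have h5 : Rep M ((x + N) % M) (z + -1 + M) := by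
    unfold Rep at *
    refine h2.trans ?_
    simp [Int.ModEq]
  have h6 : (((x + N) % M : ℕ) : ℤ) = z + -1 + M := by
    refine h5.eq_of_lt (Nat.mod_lt _ hM) ?_ ?_
    · have := h4.1
      have hHn : (0 : ℤ) ≤ H := by positivity
      linarith
    · linarith
  have h7 : (((x + N) % M : ℕ) : ℤ) ≤ H := by exact_mod_cast h1
  rw [h6] at h7
  linarith [h4.1]

theorem pos2_sound {x : ℕ} {z : ℤ} (hx : Rep M2 x z) (hz : |z| ≤ 2 ^ 1151)
    (h : pos2 x = true) : 0 < z := by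
  exact pos_of_ble M2_pos rep_N2 hx (hz.trans hM2) h

theorem posM_sound {x : ℕ} {z : ℤ} (hx : Rep MM x z) (hz : |z| ≤ 2 ^ 2303)
    (h : posM x = true) : 0 < z := by
  exact pos_of_ble MM_pos rep_NG hx (hz.trans hMM) h

/-- the three minors, integers -/
def m22z (N : Hm ℤ) : ℤ := N.a * N.b - (N.d * N.d + N.e * N.e)
def m33z (N : Hm ℤ) : ℤ := N.a * N.c - (N.f * N.f + N.g * N.g)
def m23rz (N : Hm ℤ) : ℤ := N.a * N.h - (N.d * N.f + N.e * N.g)
def m23iz (N : Hm ℤ) : ℤ := N.a * N.i - (N.d * N.g - N.e * N.f)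

def PDz (N : Hm ℤ) : Prop :=
  0 < N.a ∧ 0 < m22z N ∧ 0 < m22z N * m33z N - (m23rz N * m23rz N + m23iz N * m23iz N)

/-- all entries have absolute value at most `b` -/
def Bd (b : ℤ) (N : Hm ℤ) : Prop :=
  |N.a| ≤ b ∧ |N.b| ≤ b ∧ |N.c| ≤ b ∧ |N.d| ≤ b ∧ |N.e| ≤ b ∧ |N.f| ≤ b ∧ |N.g| ≤ b ∧
    |N.h| ≤ b ∧ |N.i| ≤ b

theorem mn_rep {a b c d e f : ℕ} {a' b' c' d' e' f' : ℤ} (ha : Rep M2 a a') (hb : Rep M2 b b')
    (hc : Rep M2 c c') (hd : Rep M2 d d') (he : Rep M2 e e') (hf : Rep M2 f f') :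
    Rep M2 (mn a b c d e f) (a' * b' - (c' * d' + e' * f')) := by
  have h := ((ha.mul hb).add (rep_N2.mul ((hc.mul hd).add (he.mul hf)))).mod
  have h2 : a' * b' - (c' * d' + e' * f') = a' * b' + -1 * (c' * d' + e' * f') := by ring
  rw [h2]
  exact h

theorem abs_mul_le {x y b c : ℤ} (hx : |x| ≤ b) (hy : |y| ≤ c) : |x * y| ≤ b * c := by
  rw [abs_mul]
  exact mul_le_mul hx hy (abs_nonneg _) ((abs_nonneg _).trans hx)

theorem abs3_le {x y z b : ℤ} (hx : |x| ≤ b) (hy : |y| ≤ b) (hz : |z| ≤ b) :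
    |x - (y + z)| ≤ 3 * b := by
  have h1 := abs_le.1 hx
  have h2 := abs_le.1 hy
  have h3 := abs_le.1 hz
  exact abs_le.2 ⟨by linarith, by linarith⟩

theorem abs3_le' {x y z b : ℤ} (hx : |x| ≤ b) (hy : |y| ≤ b) (hz : |z| ≤ b) :
    |x - (y - z)| ≤ 3 * b := by
  have h1 := abs_le.1 hx
  have h2 := abs_le.1 hy
  have h3 := abs_le.1 hz
  exact abs_le.2 ⟨by linarith, by linarith⟩

/-- representation of the nine entries modulo `2 ^ 1152`. -/
theorem psd1_sound {a b c d e f g h i : ℕ} {N : Hm ℤ} (ha : Rep M2 a N.a) (hb : Rep M2 b N.b)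
    (hc : Rep M2 c N.c) (hd : Rep M2 d N.d) (he : Rep M2 e N.e) (hf : Rep M2 f N.f)
    (hg : Rep M2 g N.g) (hh : Rep M2 h N.h) (hi : Rep M2 i N.i) (hN : Bd (2 ^ 256) N)
    (H : psd1 a b c d e f g h i = true) : PDz N := by
  obtain ⟨qa, qb, qc, qd, qe, qf, qg, qh, qi⟩ := hN
  unfold psd1 psd2 at H
  rw [andB_iff, andB_iff] at H
  obtain ⟨H1, H2, H3⟩ := H
  have r22 : Rep M2 (mn a b d d e e) (m22z N) := mn_rep ha hb hd hd he he
  have r33 : Rep M2 (mn a c f f g g) (m33z N) := mn_rep ha hc hf hf hg hg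
  have rr : Rep M2 (mn a h d f e g) (m23rz N) := mn_rep ha hh hd hf he hg
  have ri : Rep M2 (Nat.mod (Nat.add (Nat.add (Nat.mul a i) (Nat.mul e f))
      (Nat.mul N2 (Nat.mul d g))) M2) (m23iz N) := by
    have h := (((ha.mul hi).add (he.mul hf)).add (rep_N2.mul (hd.mul hg))).mod
    have h2 : m23iz N = N.a * N.i + N.e * N.f + -1 * (N.d * N.g) := by
      unfold m23iz; ring
    rw [h2]
    exact h
  have e0 : (2 : ℤ) ^ 256 * 2 ^ 256 = 2 ^ 512 := by rw [← pow_add]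
  have b22 : |m22z N| ≤ 3 * 2 ^ 512 := by
    unfold m22z; rw [← e0]
    exact abs3_le (abs_mul_le qa qb) (abs_mul_le qd qd) (abs_mul_le qe qe)
  have b33 : |m33z N| ≤ 3 * 2 ^ 512 := by
    unfold m33z; rw [← e0]
    exact abs3_le (abs_mul_le qa qc) (abs_mul_le qf qf) (abs_mul_le qg qg)
  have br : |m23rz N| ≤ 3 * 2 ^ 512 := by
    unfold m23rz; rw [← e0]
    exact abs3_le (abs_mul_le qa qh) (abs_mul_le qd qf) (abs_mul_le qe qg)
  have bi : |m23iz N| ≤ 3 * 2 ^ 512 := by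
    unfold m23iz; rw [← e0]
    exact abs3_le' (abs_mul_le qa qi) (abs_mul_le qd qg) (abs_mul_le qe qf)
  refine ⟨pos2_sound ha (qa.trans ?_) H1, pos2_sound r22 (b22.trans ?_) H2, ?_⟩
  · decide +kernel
  · decide +kernel
  · refine pos2_sound ?_ ?_ H3
    · have h := (r22.mul r33).add (rep_N2.mul ((rr.mul rr).add (ri.mul ri)))
      have h2 : m22z N * m33z N - (m23rz N * m23rz N + m23iz N * m23iz N) =
        m22z N * m33z N + -1 * (m23rz N * m23rz N + m23iz N * m23iz N) := by ring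
      rw [h2]
      exact h
    · refine (abs3_le (abs_mul_le b22 b33) (abs_mul_le br br) (abs_mul_le bi bi)).trans ?_
      decide +kernel

end Pool.Agent.Helper17.PAK
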