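import Pool.Agent.Helper17.C75.Kp4

/-! Row KPD of the kernel checker for MP_c75db0: the tests as real inequalities. -/

set_option autoImplicit false
set_option exponentiation.threshold 4000
noncomputable section
namespace Pool.Agent.Helper17.PAK

open Pool.Agent.Helper86.CX
open Complex ComplexConjugate

/-- the real form `N / s` -/
def sc (s : ℝ) (N : Hm ℤ) : Hm ℝ :=
  ⟨N.a / s, N.b / s, N.c / s, N.d / s, N.e / s, N.f / s, N.g / s, N.h / s, N.i / s⟩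

/-- `|v|²` -/
def nrm (v : Fin 3 → ℂ) : ℝ := normSq (v 0) + normSq (v 1) + normSq (v 2)

theorem nrm_nonneg (v : Fin 3 → ℂ) : 0 ≤ nrm v :=
  add_nonneg (add_nonneg (normSq_nonneg _) (normSq_nonneg _)) (normSq_nonneg _)

/-- linear expression of `ev` -/
theorem ev_lin (K : Hm ℝ) (v : Fin 3 → ℂ) :
    ev K v = K.a * normSq (v 0) + K.b * normSq (v 1) + K.c * normSq (v 2) +
      K.d * (2 * (conj (v 0) * v 1).re) - K.e * (2 * (conj (v 0) * v 1).im) +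
      K.f * (2 * (conj (v 0) * v 2).re) - K.g * (2 * (conj (v 0) * v 2).im) +
      K.h * (2 * (conj (v 1) * v 2).re) - K.i * (2 * (conj (v 1) * v 2).im) := by
  simp only [ev]
  simp [normSq_apply]
  ring

theorem PDz_PD {N : Hm ℤ} (h : PDz N) : PD (sc 1 N) := by
  obtain ⟨h1, h2, h3⟩ := h
  unfold PD m22 m33 m23r m23i sc
  unfold m22z m33z m23rz m23iz at *
  simp only [div_one]
  refine ⟨by exact_mod_cast h1, by exact_mod_cast h2, by exact_mod_cast h3⟩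

theorem PDz_ev {N : Hm ℤ} (h : PDz N) (v : Fin 3 → ℂ) : 0 ≤ ev (sc 1 N) v :=
  ev_nonneg (PDz_PD h) v

theorem blkF_ev (R A W T : ℤ) (Q L : Hm ℤ) (v : Fin 3 → ℂ) :
    ev (sc 1 (blkF (2 ^ 48) R A W T Q L)) v =
      2 ^ 166 * ev (NB (sc (2 ^ 70) Q) (R / 2 ^ 48) (A / 2 ^ 48) (W / 2 ^ 48) (T / 2 ^ 48)) v -
        2 ^ 136 * nrm v - 2 ^ 121 * ev (sc 1 L) v := by
  rw [ev_lin, ev_lin, ev_lin]
  simp only [blkF, addH, smulH, idH, NBz, NB, sc, nrm]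
  push_cast
  ring

/-- the conclusion of the block test, real form -/
theorem blkF_real {R A W T : ℤ} {Q L : Hm ℤ} (h : PDz (blkF (2 ^ 48) R A W T Q L))
    (v : Fin 3 → ℂ) :
    ev (sc (2 ^ 45) L) v + (1 / 2 ^ 30) * nrm v ≤
      ev (NB (sc (2 ^ 70) Q) (R / 2 ^ 48) (A / 2 ^ 48) (W / 2 ^ 48) (T / 2 ^ 48)) v := by
  have h1 := PDz_ev h v
  rw [blkF_ev] at h1
  have e : ev (sc (2 ^ 45) L) v = ev (sc 1 L) v / 2 ^ 45 := by
    rw [ev_lin, ev_lin]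
    simp only [sc]
    ring
  rw [e]
  generalize ev (NB (sc (2 ^ 70) Q) (R / 2 ^ 48) (A / 2 ^ 48) (W / 2 ^ 48) (T / 2 ^ 48)) v = X
    at h1 ⊢
  generalize ev (sc 1 L) v = Y at h1 ⊢
  generalize nrm v = Z at h1 ⊢
  linarith

/-- THE TEST AT AN END -/
theorem blk_ev {P : P9} {Q : Hm ℤ} {V : VR} {R A W T : ℤ} {lam K : ℕ}
    (hP : EncP P Q) (hV : EncV V (2 ^ 48) R A W T) (hR : |R| ≤ 2 ^ 56)
    (hA : |A| ≤ 2 ^ 56) (hW : |W| ≤ 2 ^ 56) (hT : |T| ≤ 2 ^ 56) (hQ : Bd (2 ^ 76) Q)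
    (hl : lam < 2 ^ 32) (h : blk (dotV P V) lam (mkKN K) = true) (v : Fin 3 → ℂ) :
    ((lam : ℝ) / 2 ^ 24) * ev (sc (2 ^ 20) (kz K)) v + (1 / 2 ^ 30) * nrm v ≤
      ev (NB (sc (2 ^ 70) Q) (R / 2 ^ 48) (A / 2 ^ 48) (W / 2 ^ 48) (T / 2 ^ 48)) v := by
  have h1 := blkF_real (blk_pd hP hV (by decide +kernel) hR hA hW hT hQ hl h) v
  have e : ev (sc (2 ^ 45) (smulH (2 * lam) (kz K))) v =
      ((lam : ℝ) / 2 ^ 24) * ev (sc (2 ^ 20) (kz K)) v := by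
    rw [ev_lin, ev_lin]
    simp only [sc, smulH]
    push_cast
    ring
  rw [e] at h1
  exact h1

/-- THE TEST AT THE MIDDLE CONTROL -/
theorem blkc_ev {P : P9} {Q : Hm ℤ} {V : VR} {R A W T : ℤ} {l0 l1 K0 K1 : ℕ}
    (hP : EncP P Q) (hV : EncV V (2 ^ 48) R A W T) (hR : |R| ≤ 2 ^ 56)
    (hA : |A| ≤ 2 ^ 56) (hW : |W| ≤ 2 ^ 56) (hT : |T| ≤ 2 ^ 56) (hQ : Bd (2 ^ 76) Q)
    (hl0 : l0 < 2 ^ 32) (hl1 : l1 < 2 ^ 32)
    (h : blkc (dotV P V) l0 l1 (mkKN K0) (mkKN K1) = true) (v : Fin 3 → ℂ) :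
    (((l0 : ℝ) / 2 ^ 24) * ev (sc (2 ^ 20) (kz K1)) v +
        ((l1 : ℝ) / 2 ^ 24) * ev (sc (2 ^ 20) (kz K0)) v) / 2 + (1 / 2 ^ 30) * nrm v ≤
      ev (NB (sc (2 ^ 70) Q) (R / 2 ^ 48) (A / 2 ^ 48) (W / 2 ^ 48) (T / 2 ^ 48)) v := by
  have h1 := blkF_real (blkc_pd hP hV (by decide +kernel) hR hA hW hT hQ hl0 hl1 h) v
  have e : ev (sc (2 ^ 45) (addH (smulH l0 (kz K1)) (smulH l1 (kz K0)))) v =
      (((l0 : ℝ) / 2 ^ 24) * ev (sc (2 ^ 20) (kz K1)) v +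
        ((l1 : ℝ) / 2 ^ 24) * ev (sc (2 ^ 20) (kz K0)) v) / 2 := by
    rw [ev_lin, ev_lin, ev_lin]
    simp only [sc, smulH, addH]
    push_cast
    ring
  rw [e] at h1
  exact h1

/-! ### ranges -/

theorem rng_sound {x : ℕ} {q : ℤ} (hx : Rep MM x q) (hq : |q| ≤ 2 ^ 2302)
    (h : rng x = true) : |q| ≤ 2 ^ 76 := by
  have h1 : (x + 2 ^ 76) % MM ≤ 2 ^ 77 := Nat.le_of_ble_eq_true h
  have h2 : Rep MM ((x + 2 ^ 76) % MM) (q + 2 ^ 76) := by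
    have h := (hx.add (Rep.nat MM (2 ^ 76))).mod
    push_cast at h
    exact h
  have h3 : (((x + 2 ^ 76) % MM : ℕ) : ℤ) ≤ 2 ^ 77 := by exact_mod_cast h1
  have h4 := abs_le.1 hq
  have hlt : (x + 2 ^ 76) % MM < MM := Nat.mod_lt _ MM_pos
  have c1 : (2 : ℤ) ^ 2302 + 2 ^ 76 < (MM : ℤ) := by decide +kernel
  have c2 : (2 : ℤ) ^ 77 < -2 ^ 2302 + 2 ^ 76 + (MM : ℤ) := by decide +kernel
  rcases le_or_gt 0 (q + 2 ^ 76) with h5 | h5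
  · have h6 := h2.eq_of_lt hlt h5 (by linarith [h4.2])
    rw [h6] at h3
    exact abs_le.2 ⟨by linarith, by linarith⟩
  · exfalso
    have h7 : Rep MM ((x + 2 ^ 76) % MM) (q + 2 ^ 76 + MM) := by
      unfold Rep at *
      refine h2.trans ?_
      simp [Int.ModEq]
    have h6 := h7.eq_of_lt hlt (by linarith [h4.1]) (by linarith)
    rw [h6] at h3
    linarith [h4.1]

theorem rng9_sound {P : P9} {Q : Hm ℤ} (hP : EncP P Q) (hQ : Bd (2 ^ 2302) Q)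
    (h : rng9 P = true) : Bd (2 ^ 76) Q := by
  unfold rng9 at h
  simp only [andB_iff] at h
  obtain ⟨h1, h2, h3, h4, h5, h6, h7, h8, h9⟩ := h
  obtain ⟨a1, a2, a3, a4, a5, a6, a7, a8, a9⟩ := hP
  obtain ⟨q1, q2, q3, q4, q5, q6, q7, q8, q9⟩ := hQ
  exact ⟨rng_sound a1 q1 h1, rng_sound a2 q2 h2, rng_sound a3 q3 h3, rng_sound a4 q4 h4,
    rng_sound a5 q5 h5, rng_sound a6 q6 h6, rng_sound a7 q7 h7, rng_sound a8 q8 h8,
    rng_sound a9 q9 h9⟩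

end Pool.Agent.Helper17.PAK
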