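import Mathlib.Algebra.Group.Basic
import Mathlib.Algebra.BigOperators.Group.List.Basic
import Mathlib.Data.List.Infix
import Mathlib.Data.Fin.Basic
import Mathlib.Tactic

/-!
Canonical words of triangle groups (work file for `MP_c75db0_gt`, not imported by any hand-in).

Letters are `Fin 3`; the star with the two letters `x ≠ y` has the index `third x y`, its order is
`M (third x y)`, and `M _ = 0` means infinite order.
-/

set_option autoImplicit false

namespace C75

/-- the third letter -/
def third (x y : Fin 3) : Fin 3 := -(x + y)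

/-- alternating word `x y x y ...` of length `n` -/
def alt (x y : Fin 3) : ℕ → List (Fin 3)
  | 0 => []
  | n + 1 => x :: alt y x n

/-- the `n`-th letter of the alternating word -/
def nx (x y : Fin 3) : ℕ → Fin 3
  | 0 => x
  | n + 1 => nx y x n

theorem third_comm (x y : Fin 3) : third x y = third y x := by
  unfold third; rw [add_comm]

theorem third_third (x y : Fin 3) : third (third x y) y = x := by
  revert x y; decide

theorem third_third' (x y : Fin 3) : third y (third x y) = x := by
  revert x y; decide

theorem third_third'' (x y : Fin 3) : third x (third x y) = y := by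
  revert x y; decide

theorem third_ne_left (x y : Fin 3) (h : x ≠ y) : third x y ≠ x := by
  revert x y; decide

theorem third_ne_right (x y : Fin 3) (h : x ≠ y) : third x y ≠ y := by
  revert x y; decide

theorem eq_third (x y z : Fin 3) (h : x ≠ y) (h1 : z ≠ x) (h2 : z ≠ y) : z = third x y := by
  revert x y z; decide

theorem alt_length (x y : Fin 3) (n : ℕ) : (alt x y n).length = n := by
  induction n generalizing x y with
  | zero => rfl
  | succ n ih => simp [alt, ih]

theorem nx_two (x y : Fin 3) (n : ℕ) : nx x y (n + 2) = nx x y n := rfl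

theorem nx_cases (x y : Fin 3) (n : ℕ) :
    (nx x y n = x ∧ nx x y (n + 1) = y) ∨ (nx x y n = y ∧ nx x y (n + 1) = x) := by
  induction n generalizing x y with
  | zero => left; exact ⟨rfl, rfl⟩
  | succ n ih =>
    rcases ih y x with h | h
    · right; exact ⟨h.1, h.2⟩
    · left; exact ⟨h.1, h.2⟩

theorem nx_ne (x y : Fin 3) (n : ℕ) (h : x ≠ y) : nx x y n ≠ nx x y (n + 1) := by
  rcases nx_cases x y n with h1 | h1
  · rw [h1.1, h1.2]; exact h
  · rw [h1.1, h1.2]; exact h.symm

theorem third_nx (x y : Fin 3) (n : ℕ) : third (nx x y n) (nx x y (n + 1)) = third x y := by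
  rcases nx_cases x y n with h1 | h1
  · rw [h1.1, h1.2]
  · rw [h1.1, h1.2, third_comm]

/-- `alt x y (n+1) = alt x y n ++ [n-th letter]` -/
theorem alt_succ (x y : Fin 3) (n : ℕ) : alt x y (n + 1) = alt x y n ++ [nx x y n] := by
  induction n generalizing x y with
  | zero => rfl
  | succ n ih =>
    have h := ih y x
    calc alt x y (n + 1 + 1) = x :: alt y x (n + 1) := rfl
      _ = x :: (alt y x n ++ [nx y x n]) := by rw [h]
      _ = alt x y (n + 1) ++ [nx x y (n + 1)] := rfl

theorem alt_prefix (x y : Fin 3) (m n : ℕ) (h : m ≤ n) : alt x y m <+: alt x y n := by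
  induction n with
  | zero =>
    have : m = 0 := by omega
    subst this; exact List.prefix_refl _
  | succ n ih =>
    rcases Nat.lt_or_ge n m with h1 | h1
    · have : m = n + 1 := by omega
      subst this; exact List.prefix_refl _
    · rw [alt_succ]
      exact (ih h1).trans (List.prefix_append _ _)

section grp

variable {G : Type*} [Group G] (s : Fin 3 → G)

/-- product of a word -/
def wp (w : List (Fin 3)) : G := (w.map s).prod

theorem wp_nil : wp s [] = 1 := rfl

theorem wp_cons (x : Fin 3) (w : List (Fin 3)) : wp s (x :: w) = s x * wp s w := by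
  simp [wp]

theorem wp_append (u v : List (Fin 3)) : wp s (u ++ v) = wp s u * wp s v := by
  simp [wp]

theorem wp_alt_two (x y : Fin 3) (k : ℕ) : wp s (alt x y (2 * k)) = (s x * s y) ^ k := by
  induction k with
  | zero => simp [alt, wp_nil]
  | succ k ih =>
    have h : 2 * (k + 1) = 2 * k + 2 := by ring
    rw [h]
    change wp s (x :: y :: alt x y (2 * k)) = _
    rw [wp_cons, wp_cons, ih, pow_succ', mul_assoc]

theorem wp_alt_odd (x y : Fin 3) (k : ℕ) : wp s (alt x y (2 * k + 1)) = (s x * s y) ^ k * s x := by
  change wp s (x :: alt y x (2 * k)) = _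
  rw [wp_cons, wp_alt_two]
  induction k with
  | zero => simp
  | succ k ih =>
    rw [pow_succ, ← mul_assoc, ih, pow_succ]
    simp only [mul_assoc]

theorem braid (hs : ∀ x, s x * s x = 1) (x y : Fin 3) (m : ℕ) (hm : (s x * s y) ^ m = 1) :
    wp s (alt x y m) = wp s (alt y x m) := by
  have hx : (s x)⁻¹ = s x := inv_eq_of_mul_eq_one_left (hs x)
  have hy : (s y)⁻¹ = s y := inv_eq_of_mul_eq_one_left (hs y)
  have hi : s y * s x = (s x * s y)⁻¹ := by rw [mul_inv_rev, hx, hy]
  rcases Nat.even_or_odd' m with ⟨k, hk | hk⟩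
  · subst hk
    rw [wp_alt_two, wp_alt_two, hi, inv_pow, eq_inv_iff_mul_eq_one, ← pow_add]
    rw [← hm]; congr 1; ring
  · subst hk
    rw [wp_alt_odd, wp_alt_odd, hi, inv_pow]
    have h2 : (s x * s y) ^ k * (s x * s y) * (s x * s y) ^ k = 1 := by
      rw [← pow_succ, ← pow_add, ← hm]; congr 1; ring
    have h3 : (s x * s y) ^ k * s x = ((s x * s y) ^ k)⁻¹ * (s y) := by
      have h4 : (s x * s y) ^ k * s x * s y = ((s x * s y) ^ k)⁻¹ := by
        rw [eq_inv_iff_mul_eq_one]
        rw [← h2]; simp only [mul_assoc]
      calc (s x * s y) ^ k * s x = (s x * s y) ^ k * s x * (s y * s y) := by rw [hs y, mul_one]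
        _ = (s x * s y) ^ k * s x * s y * s y := by simp only [mul_assoc]
        _ = ((s x * s y) ^ k)⁻¹ * s y := by rw [h4]
    exact h3

end grp

/-- the potential: bit `i` is set when the letters `i` and `i+2` agree -/
def pot : List (Fin 3) → ℕ
  | [] => 0
  | [_] => 0
  | [_, _] => 0
  | a :: b :: c :: t => (if a = c then 1 else 0) + 2 * pot (b :: c :: t)

theorem pot_cons (a b c : Fin 3) (t : List (Fin 3)) :
    pot (a :: b :: c :: t) = (if a = c then 1 else 0) + 2 * pot (b :: c :: t) := rfl

theorem pot_cons_le (a : Fin 3) (w : List (Fin 3)) : pot (a :: w) ≤ 1 + 2 * pot w := by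
  rcases w with _ | ⟨b, _ | ⟨c, t⟩⟩
  · simp [pot]
  · simp [pot]
  · rw [pot_cons]; split_ifs <;> omega

theorem pot_lt (w : List (Fin 3)) : pot w + 1 ≤ 2 ^ w.length := by
  induction w with
  | nil => simp [pot]
  | cons a w ih =>
    have := pot_cons_le a w
    rw [List.length_cons, pow_succ]; omega

theorem pot_append_le (q T : List (Fin 3)) :
    pot (q ++ T) + 1 ≤ 2 ^ q.length + 2 ^ q.length * pot T := by
  induction q with
  | nil => simp
  | cons a q ih =>
    have := pot_cons_le a (q ++ T)
    rw [List.cons_append, List.length_cons, pow_succ]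
    nlinarith [this, ih]

theorem pot_append_ge (q : List (Fin 3)) (a b : Fin 3) (t : List (Fin 3)) :
    2 ^ q.length * pot (a :: b :: t) ≤ pot (q ++ a :: b :: t) := by
  induction q with
  | nil => simp
  | cons x q ih =>
    have h : pot (x :: (q ++ a :: b :: t)) ≥ 2 * pot (q ++ a :: b :: t) := by
      rcases q with _ | ⟨y, _ | ⟨z, q⟩⟩
      · simp only [List.nil_append]
        rw [pot_cons]; omega
      · simp only [List.cons_append, List.nil_append]
        rw [pot_cons]; omega
      · simp only [List.cons_append]
        rw [pot_cons]; omega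
    rw [List.cons_append, List.length_cons, pow_succ]
    nlinarith [h, ih]

/-- the rewriting step increases the potential -/
theorem pot_step (q q' : List (Fin 3)) (hq : q.length = q'.length) (a c d : Fin 3)
    (v : List (Fin 3)) (had : a ≠ d) :
    pot (q ++ a :: c :: d :: v) < pot (q' ++ d :: c :: d :: v) := by
  have h1 := pot_append_le q (a :: c :: d :: v)
  have h2 := pot_append_ge q' d c (d :: v)
  rw [pot_cons, if_neg had] at h1
  rw [pot_cons, if_pos rfl, ← hq] at h2
  have h3 : 2 ^ q.length * (1 + 2 * pot (c :: d :: v)) =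
      2 ^ q.length + 2 ^ q.length * (0 + 2 * pot (c :: d :: v)) := by ring
  rw [h3] at h2
  omega

variable (M : Fin 3 → ℕ)

/-- canonical words: no letter twice, no alternating factor longer than the order of its star, and
no full alternating factor `... l' l` followed by `c l'` (`c` the third letter) -/
structure Good (w : List (Fin 3)) : Prop where
  sq : ∀ x, ¬ [x, x] <:+: w
  len : ∀ x y, x ≠ y → M (third x y) ≠ 0 → ¬ alt x y (M (third x y) + 1) <:+: w
  can : ∀ x y, x ≠ y → M (third x y) ≠ 0 →
    ¬ (alt x y (M (third x y)) ++ [third x y, nx x y (M (third x y))]) <:+: w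

/-- canonical words for a congruence `E` on words (`E u v`: same group element) -/
theorem canonicalE (E : List (Fin 3) → List (Fin 3) → Prop) (hrefl : ∀ u, E u u)
    (htrans : ∀ u v w, E u v → E v w → E u w)
    (hcong : ∀ a u v b, E u v → E (a ++ u ++ b) (a ++ v ++ b))
    (hsq : ∀ x, E [x, x] [])
    (hbr : ∀ x y, x ≠ y → E (alt x y (M (third x y))) (alt y x (M (third x y)))) :
    ∀ w : List (Fin 3), ∃ w' : List (Fin 3), E w w' ∧ w'.length ≤ w.length ∧ Good M w' := by
  -- induction on the length and on the potential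
  have key : ∀ n k : ℕ, ∀ w : List (Fin 3), w.length = n → 2 ^ n - pot w = k →
      ∃ w' : List (Fin 3), E w w' ∧ w'.length ≤ w.length ∧ Good M w' := by
    intro n
    induction n using Nat.strong_induction_on with
    | _ n ihn =>
    intro k
    induction k using Nat.strong_induction_on with
    | _ k ihk =>
    intro w hw hk
    by_cases hg : Good M w
    · exact ⟨w, hrefl w, le_refl _, hg⟩
    -- shorter word
    have short : ∀ w1 : List (Fin 3), E w w1 → w1.length < w.length →
        ∃ w' : List (Fin 3), E w w' ∧ w'.length ≤ w.length ∧ Good M w' := by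
      intro w1 h1 h2
      obtain ⟨w', e1, e2, e3⟩ := ihn w1.length (by omega) _ w1 rfl rfl
      exact ⟨w', htrans _ _ _ h1 e1, by omega, e3⟩
    by_cases h1 : ∃ x, [x, x] <:+: w
    · obtain ⟨x, u, v, huv⟩ := h1
      refine short (u ++ v) ?_ ?_
      · have := hcong u [x, x] [] v (hsq x)
        rw [← huv]; simpa using this
      · rw [← huv]; simp
    by_cases h2 : ∃ x y, x ≠ y ∧ M (third x y) ≠ 0 ∧ alt x y (M (third x y) + 1) <:+: w
    · obtain ⟨x, y, hxy, hm, u, v, huv⟩ := h2
      obtain ⟨m, hm'⟩ := Nat.exists_eq_succ_of_ne_zero hm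
      rw [hm', Nat.succ_eq_add_one] at huv
      have hb := hbr x y hxy
      rw [hm', Nat.succ_eq_add_one] at hb
      refine short (u ++ alt y x m ++ v) ?_ ?_
      · have e0 : alt x y (m + 1 + 1) = alt x y (m + 1) ++ [nx y x m] := alt_succ x y (m + 1)
        have e1 : E (alt x y (m + 1 + 1)) (alt y x m) := by
          have a1 := hcong [] _ _ [nx y x m] hb
          simp only [List.nil_append] at a1
          rw [← e0, alt_succ y x m] at a1
          have a2 := hcong (alt y x m) [nx y x m, nx y x m] [] [] (hsq _)
          simp only [List.append_nil] at a2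
          refine htrans _ _ _ a1 ?_
          simpa using a2
        have := hcong u _ _ v e1
        rw [← huv]; exact this
      · rw [← huv]; simp [alt_length]
    by_cases h3 : ∃ x y, x ≠ y ∧ M (third x y) ≠ 0 ∧
        (alt x y (M (third x y)) ++ [third x y, nx x y (M (third x y))]) <:+: w
    · obtain ⟨x, y, hxy, hm, u, v, huv⟩ := h3
      obtain ⟨m, hm'⟩ := Nat.exists_eq_succ_of_ne_zero hm
      rw [hm', Nat.succ_eq_add_one] at huv
      have hb := hbr x y hxy
      rw [hm', Nat.succ_eq_add_one] at hb
      have hw1 : w = (u ++ alt x y m) ++ nx x y m :: third x y :: nx x y (m + 1) :: v := by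
        rw [← huv, alt_succ]; simp
      have hw2 : u ++ (alt y x (m + 1) ++ [third x y, nx x y (m + 1)]) ++ v =
          (u ++ alt y x m) ++ nx x y (m + 1) :: third x y :: nx x y (m + 1) :: v := by
        rw [alt_succ]
        have : nx x y (m + 1) = nx y x m := rfl
        rw [this]; simp
      have hlt : pot w < pot (u ++ (alt y x (m + 1) ++ [third x y, nx x y (m + 1)]) ++ v) := by
        rw [hw1, hw2]
        exact pot_step _ _ (by simp [alt_length]) _ _ _ _ (nx_ne x y m hxy)
      have hlen : (u ++ (alt y x (m + 1) ++ [third x y, nx x y (m + 1)]) ++ v).length = n := by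
        rw [← hw, ← huv]; simp [alt_length]
      have hwp : E w (u ++ (alt y x (m + 1) ++ [third x y, nx x y (m + 1)]) ++ v) := by
        have := hcong u _ _ ([third x y, nx x y (m + 1)] ++ v) hb
        rw [← huv]; simpa using this
      have hb1 := pot_lt w
      have hb2 := pot_lt (u ++ (alt y x (m + 1) ++ [third x y, nx x y (m + 1)]) ++ v)
      rw [hlen] at hb2
      rw [hw] at hb1
      obtain ⟨w', e3, e4, e5⟩ := ihk
        (2 ^ n - pot (u ++ (alt y x (m + 1) ++ [third x y, nx x y (m + 1)]) ++ v)) (by omega)
        (u ++ (alt y x (m + 1) ++ [third x y, nx x y (m + 1)]) ++ v) hlen rfl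
      exact ⟨w', htrans _ _ _ hwp e3, by omega, e5⟩
    · exfalso
      apply hg
      push Not at h1 h2 h3
      exact ⟨h1, h2, h3⟩
  intro w
  exact key w.length _ w rfl rfl

section main

variable {G : Type*} [Group G] (s : Fin 3 → G)

theorem canonical (hs : ∀ x, s x * s x = 1)
    (hM : ∀ x y, x ≠ y → (s x * s y) ^ M (third x y) = 1) :
    ∀ w : List (Fin 3), ∃ w' : List (Fin 3), wp s w' = wp s w ∧ w'.length ≤ w.length ∧ Good M w' := by
  intro w
  obtain ⟨w', h1, h2, h3⟩ := canonicalE M (fun u v => wp s u = wp s v) (fun _ => rfl)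
    (fun _ _ _ h1 h2 => h1.trans h2)
    (fun a u v b h => by simp only [wp_append]; rw [h])
    (fun x => by simp [wp, hs]) (fun x y hxy => braid s hs x y _ (hM x y hxy)) w
  exact ⟨w', h1.symm, h2, h3⟩

end main

end C75
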