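import Pool.Agent.Helper17.C75.Kp1

/-! Row KPD of the kernel checker for MP_c75db0: packed forms, block tests. -/

set_option autoImplicit false
namespace Pool.Agent.Helper17.PAK

open Pool.Agent.Helper86.CX

/-! ### packed forms -/

/-- the packed number, base `X`. -/
def pk9 (X : ℤ) (N : Hm ℤ) : ℤ :=
  N.a + N.b * X + N.c * X ^ 2 + N.d * X ^ 3 + N.e * X ^ 4 + N.f * X ^ 5 + N.g * X ^ 6 +
    N.h * X ^ 7 + N.i * X ^ 8

def fn (N : Hm ℤ) : ℕ → ℤ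
  | 0 => N.a
  | 1 => N.b
  | 2 => N.c
  | 3 => N.d
  | 4 => N.e
  | 5 => N.f
  | 6 => N.g
  | 7 => N.h
  | 8 => N.i
  | _ => 0

theorem pk_fn (B : ℕ) (N : Hm ℤ) : pk B (fn N) 9 = pk9 (B : ℤ) N := by
  simp only [pk, fn, pk9]
  ring

def addH (M N : Hm ℤ) : Hm ℤ :=
  ⟨M.a + N.a, M.b + N.b, M.c + N.c, M.d + N.d, M.e + N.e, M.f + N.f, M.g + N.g, M.h + N.h,
    M.i + N.i⟩
def smulH (r : ℤ) (N : Hm ℤ) : Hm ℤ :=
  ⟨r * N.a, r * N.b, r * N.c, r * N.d, r * N.e, r * N.f, r * N.g, r * N.h, r * N.i⟩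
/-- all entries equal -/
def cstH (r : ℤ) : Hm ℤ := ⟨r, r, r, r, r, r, r, r, r⟩
/-- a multiple of the identity -/
def idH (r : ℤ) : Hm ℤ := ⟨r, r, r, 0, 0, 0, 0, 0, 0⟩

theorem pk9_add (X : ℤ) (M N : Hm ℤ) : pk9 X M + pk9 X N = pk9 X (addH M N) := by
  simp only [pk9, addH]; ring

theorem pk9_smul (X r : ℤ) (N : Hm ℤ) : r * pk9 X N = pk9 X (smulH r N) := by
  simp only [pk9, smulH]; ring

theorem Bd.add {b c : ℤ} {M N : Hm ℤ} (hM : Bd b M) (hN : Bd c N) : Bd (b + c) (addH M N) := by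
  obtain ⟨a1, a2, a3, a4, a5, a6, a7, a8, a9⟩ := hM
  obtain ⟨b1, b2, b3, b4, b5, b6, b7, b8, b9⟩ := hN
  exact ⟨(abs_add_le _ _).trans (add_le_add a1 b1), (abs_add_le _ _).trans (add_le_add a2 b2),
    (abs_add_le _ _).trans (add_le_add a3 b3), (abs_add_le _ _).trans (add_le_add a4 b4),
    (abs_add_le _ _).trans (add_le_add a5 b5), (abs_add_le _ _).trans (add_le_add a6 b6),
    (abs_add_le _ _).trans (add_le_add a7 b7), (abs_add_le _ _).trans (add_le_add a8 b8),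
    (abs_add_le _ _).trans (add_le_add a9 b9)⟩

theorem Bd.smul {b c r : ℤ} {N : Hm ℤ} (hr : |r| ≤ c) (hN : Bd b N) :
    Bd (c * b) (smulH r N) := by
  obtain ⟨b1, b2, b3, b4, b5, b6, b7, b8, b9⟩ := hN
  exact ⟨abs_mul_le hr b1, abs_mul_le hr b2, abs_mul_le hr b3, abs_mul_le hr b4,
    abs_mul_le hr b5, abs_mul_le hr b6, abs_mul_le hr b7, abs_mul_le hr b8, abs_mul_le hr b9⟩

theorem Bd.mono {b c : ℤ} {N : Hm ℤ} (hN : Bd b N) (h : b ≤ c) : Bd c N := by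
  obtain ⟨b1, b2, b3, b4, b5, b6, b7, b8, b9⟩ := hN
  exact ⟨b1.trans h, b2.trans h, b3.trans h, b4.trans h, b5.trans h, b6.trans h, b7.trans h,
    b8.trans h, b9.trans h⟩

theorem Bd.id {r : ℤ} (h : 0 ≤ r) : Bd r (idH r) := by
  have h1 : |r| ≤ r := by rw [abs_of_nonneg h]
  have h2 : |(0 : ℤ)| ≤ r := by rw [abs_zero]; exact h
  exact ⟨h1, h1, h1, h2, h2, h2, h2, h2, h2⟩

/-! ### slots -/

theorem slot_rep {X k : ℕ} {N : Hm ℤ} (hX : Rep MM X (pk9 (2 ^ 256) (addH N (cstH (2 ^ 255)))))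
    (hN : Bd (2 ^ 255 - 1) N) (hk : k < 9) :
    Rep M2 (Nat.add (Nat.mod (Nat.shiftRight (Nat.mod X MM) (256 * k)) S256) D2) (fn N k) := by
  have hs : Nat.mod (Nat.shiftRight (Nat.mod X MM) (256 * k)) S256 =
      X % MM / (2 ^ 256) ^ k % 2 ^ 256 := by
    change (X % MM) >>> (256 * k) % S256 = _
    rw [Nat.shiftRight_eq_div_pow, S256_eq, pow_mul]
  have hX' : Rep MM X (pk (2 ^ 256) (fn (addH N (cstH (2 ^ 255)))) 9) := by
    rw [pk_fn]
    push_cast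
    exact hX
  have hb : ∀ i < 9, 0 ≤ fn (addH N (cstH (2 ^ 255))) i ∧
      fn (addH N (cstH (2 ^ 255))) i < ((2 ^ 256 : ℕ) : ℤ) ∧
      fn (addH N (cstH (2 ^ 255))) i = fn N i + 2 ^ 255 := by
    have e1 : ((2 ^ 256 : ℕ) : ℤ) = 2 ^ 255 + 2 ^ 255 := by
      norm_num
    rw [e1]
    obtain ⟨b1, b2, b3, b4, b5, b6, b7, b8, b9⟩ := hN
    have key : ∀ x : ℤ, |x| ≤ 2 ^ 255 - 1 →
        0 ≤ x + 2 ^ 255 ∧ x + 2 ^ 255 < 2 ^ 255 + 2 ^ 255 ∧ x + 2 ^ 255 = x + 2 ^ 255 := by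
      intro x hx
      have := abs_le.1 hx
      exact ⟨by linarith, by linarith, rfl⟩
    intro i hi
    interval_cases i
    · exact key _ b1
    · exact key _ b2
    · exact key _ b3
    · exact key _ b4
    · exact key _ b5
    · exact key _ b6
    · exact key _ b7
    · exact key _ b8
    · exact key _ b9
  have h1 := Rep.digit (M := MM) (B := 2 ^ 256) (X := X) (by positivity) hk
    (by rw [MM_eq, ← pow_mul]) (fun i hi => (hb i hi).1) (fun i hi => (hb i hi).2.1) hX'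
  rw [hs]
  have h2 : Rep M2 (X % MM / (2 ^ 256) ^ k % 2 ^ 256) (fn N k + 2 ^ 255) := by
    rw [← (hb k hk).2.2, ← h1]
    exact Rep.nat _ _
  have h3 := h2.add rep_D2
  have h4 : fn N k + 2 ^ 255 + -2 ^ 255 = fn N k := by ring
  rw [h4] at h3
  exact h3

theorem psd_sound {X : ℕ} {N : Hm ℤ} (hX : Rep MM X (pk9 (2 ^ 256) (addH N (cstH (2 ^ 255)))))
    (hN : Bd (2 ^ 255 - 1) N) (h : psd (Nat.mod X MM) = true) : PDz N := by
  have h0 : Rep M2 (Nat.add (Nat.mod (Nat.mod X MM) S256) D2) N.a :=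
    slot_rep (k := 0) hX hN (by norm_num)
  exact psd1_sound h0 (slot_rep (k := 1) hX hN (by norm_num))
    (slot_rep (k := 2) hX hN (by norm_num))
    (slot_rep (k := 3) hX hN (by norm_num)) (slot_rep (k := 4) hX hN (by norm_num))
    (slot_rep (k := 5) hX hN (by norm_num)) (slot_rep (k := 6) hX hN (by norm_num))
    (slot_rep (k := 7) hX hN (by norm_num)) (slot_rep (k := 8) hX hN (by norm_num))
    (hN.mono (by decide +kernel)) h

end Pool.Agent.Helper17.PAK
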