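import Pool.Agent.Helper17.C75.Kp2

/-! Row KPD of the kernel checker for MP_c75db0: the block tests. -/

set_option autoImplicit false
set_option exponentiation.threshold 4000
namespace Pool.Agent.Helper17.PAK

open Pool.Agent.Helper86.CX

/-! ### the form of a run -/

/-- `B^T P B` for `B = [[O, 2R, A], [R, A, -T], [W, 0, 0]]` -/
def NBz (O R A W T : ℤ) (P : Hm ℤ) : Hm ℤ :=
  ⟨O ^ 2 * P.a + R ^ 2 * P.b + W ^ 2 * P.c + 2 * O * R * P.d + 2 * O * W * P.f + 2 * R * W * P.h,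
   4 * R ^ 2 * P.a + A ^ 2 * P.b + 4 * R * A * P.d,
   A ^ 2 * P.a + T ^ 2 * P.b - 2 * A * T * P.d,
   2 * O * R * P.a + R * A * P.b + (O * A + 2 * R ^ 2) * P.d + 2 * R * W * P.f + W * A * P.h,
   (O * A - 2 * R ^ 2) * P.e - 2 * R * W * P.g - W * A * P.i,
   O * A * P.a - R * T * P.b + (R * A - O * T) * P.d + W * A * P.f - W * T * P.h,
   -(O * T + R * A) * P.e - W * A * P.g + W * T * P.i,
   2 * R * A * P.a - A * T * P.b + (A ^ 2 - 2 * R * T) * P.d,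
   -(2 * R * T + A ^ 2) * P.e⟩

/-- the words of `P` represent the integers of `Q` modulo `2 ^ 2304` -/
def EncP (P : P9) (Q : Hm ℤ) : Prop :=
  Rep MM P.a Q.a ∧ Rep MM P.b Q.b ∧ Rep MM P.c Q.c ∧ Rep MM P.d Q.d ∧ Rep MM P.e Q.e ∧
    Rep MM P.f Q.f ∧ Rep MM P.g Q.g ∧ Rep MM P.h Q.h ∧ Rep MM P.i Q.i

/-- the packed multipliers of a run -/
def EncV (V : VR) (O R A W T : ℤ) : Prop :=
  Rep MM V.a (pk9 (2 ^ 256) (NBz O R A W T ⟨1, 0, 0, 0, 0, 0, 0, 0, 0⟩)) ∧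
  Rep MM V.b (pk9 (2 ^ 256) (NBz O R A W T ⟨0, 1, 0, 0, 0, 0, 0, 0, 0⟩)) ∧
  Rep MM V.c (pk9 (2 ^ 256) (NBz O R A W T ⟨0, 0, 1, 0, 0, 0, 0, 0, 0⟩)) ∧
  Rep MM V.d (pk9 (2 ^ 256) (NBz O R A W T ⟨0, 0, 0, 1, 0, 0, 0, 0, 0⟩)) ∧
  Rep MM V.e (pk9 (2 ^ 256) (NBz O R A W T ⟨0, 0, 0, 0, 1, 0, 0, 0, 0⟩)) ∧
  Rep MM V.f (pk9 (2 ^ 256) (NBz O R A W T ⟨0, 0, 0, 0, 0, 1, 0, 0, 0⟩)) ∧
  Rep MM V.g (pk9 (2 ^ 256) (NBz O R A W T ⟨0, 0, 0, 0, 0, 0, 1, 0, 0⟩)) ∧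
  Rep MM V.h (pk9 (2 ^ 256) (NBz O R A W T ⟨0, 0, 0, 0, 0, 0, 0, 1, 0⟩)) ∧
  Rep MM V.i (pk9 (2 ^ 256) (NBz O R A W T ⟨0, 0, 0, 0, 0, 0, 0, 0, 1⟩))

instance (M n : ℕ) (x : ℤ) : Decidable (Rep M n x) := by
  unfold Rep; infer_instance
instance (V : VR) (O R A W T : ℤ) : Decidable (EncV V O R A W T) := by
  unfold EncV; infer_instance

theorem dot_lin (X O R A W T : ℤ) (Q : Hm ℤ) :
    Q.a * pk9 X (NBz O R A W T ⟨1, 0, 0, 0, 0, 0, 0, 0, 0⟩) +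
    Q.b * pk9 X (NBz O R A W T ⟨0, 1, 0, 0, 0, 0, 0, 0, 0⟩) +
    Q.c * pk9 X (NBz O R A W T ⟨0, 0, 1, 0, 0, 0, 0, 0, 0⟩) +
    Q.d * pk9 X (NBz O R A W T ⟨0, 0, 0, 1, 0, 0, 0, 0, 0⟩) +
    Q.e * pk9 X (NBz O R A W T ⟨0, 0, 0, 0, 1, 0, 0, 0, 0⟩) +
    Q.f * pk9 X (NBz O R A W T ⟨0, 0, 0, 0, 0, 1, 0, 0, 0⟩) +
    Q.g * pk9 X (NBz O R A W T ⟨0, 0, 0, 0, 0, 0, 1, 0, 0⟩) +
    Q.h * pk9 X (NBz O R A W T ⟨0, 0, 0, 0, 0, 0, 0, 1, 0⟩) +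
    Q.i * pk9 X (NBz O R A W T ⟨0, 0, 0, 0, 0, 0, 0, 0, 1⟩) = pk9 X (NBz O R A W T Q) := by
  simp only [pk9, NBz]
  ring

theorem rep_SC : Rep MM SC (pk9 (2 ^ 256) (addH (idH (-2 ^ 136)) (cstH (2 ^ 255)))) := by
  unfold Rep Int.ModEq
  decide +kernel

theorem dotV_rep {P : P9} {Q : Hm ℤ} {V : VR} {O R A W T : ℤ} (hP : EncP P Q)
    (hV : EncV V O R A W T) :
    Rep MM (dotV P V)
      (pk9 (2 ^ 256) (addH (addH (NBz O R A W T Q) (idH (-2 ^ 136))) (cstH (2 ^ 255)))) := by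
  obtain ⟨a1, a2, a3, a4, a5, a6, a7, a8, a9⟩ := hP
  obtain ⟨b1, b2, b3, b4, b5, b6, b7, b8, b9⟩ := hV
  have h := rep_SC.add (((((((((a1.mul b1).add (a2.mul b2)).add (a3.mul b3)).add
    (a4.mul b4)).add (a5.mul b5)).add (a6.mul b6)).add (a7.mul b7)).add (a8.mul b8)).add
    (a9.mul b9))
  rw [dot_lin, pk9_add] at h
  have e : addH (addH (idH (-2 ^ 136)) (cstH (2 ^ 255))) (NBz O R A W T Q) =
      addH (addH (NBz O R A W T Q) (idH (-2 ^ 136))) (cstH (2 ^ 255)) := by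
    simp only [addH, Hm.mk.injEq]
    refine ⟨?_, ?_, ?_, ?_, ?_, ?_, ?_, ?_, ?_⟩ <;> ring
  rw [e] at h
  exact h

/-! ### the forms of the table -/

/-- the nine signed entries of a form of the table -/
def kz (K : ℕ) : Hm ℤ :=
  ⟨(u32 K 0 : ℤ) - 2 ^ 31, (u32 K 32 : ℤ) - 2 ^ 31, (u32 K 64 : ℤ) - 2 ^ 31,
    (u32 K 96 : ℤ) - 2 ^ 31, (u32 K 128 : ℤ) - 2 ^ 31, (u32 K 160 : ℤ) - 2 ^ 31,
    (u32 K 192 : ℤ) - 2 ^ 31, (u32 K 224 : ℤ) - 2 ^ 31, (u32 K 256 : ℤ) - 2 ^ 31⟩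

theorem u32_lt (K k : ℕ) : u32 K k < 2 ^ 32 := by
  unfold u32
  exact Nat.mod_lt _ (by norm_num)

theorem u32_zero (K : ℕ) : u32 K 0 = Nat.mod K 4294967296 := by
  unfold u32
  change K >>> 0 % _ = K % _
  simp

theorem kz_bd (K : ℕ) : Bd (2 ^ 31) (kz K) := by
  have key : ∀ k, |(u32 K k : ℤ) - 2 ^ 31| ≤ 2 ^ 31 := by
    intro k
    have h := u32_lt K k
    have h1 : (u32 K k : ℤ) < 2 ^ 32 := by exact_mod_cast h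
    have h2 : (0 : ℤ) ≤ u32 K k := by positivity
    exact abs_le.2 ⟨by linarith, by linarith⟩
  exact ⟨key _, key _, key _, key _, key _, key _, key _, key _, key _⟩

theorem k9_enc (K : ℕ) : EncP (k9 K) (kz K) := by
  have key : ∀ k, Rep MM (t32 K k) ((u32 K k : ℤ) - 2 ^ 31) := by
    intro k
    have h := (Rep.nat MM (u32 K k)).add rep_C31
    have e : (u32 K k : ℤ) + -2 ^ 31 = (u32 K k : ℤ) - 2 ^ 31 := by ring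
    rw [e] at h
    exact h
  refine ⟨?_, key _, key _, key _, key _, key _, key _, key _, key _⟩
  have h := key 0
  unfold t32 at h
  rw [u32_zero] at h
  unfold kz
  rw [u32_zero]
  exact h

end Pool.Agent.Helper17.PAK
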