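import Pool.Agent.Helper17.C75.Kp3

/-! Row KPD of the kernel checker for MP_c75db0: the block tests. -/

set_option autoImplicit false
set_option exponentiation.threshold 4000
namespace Pool.Agent.Helper17.PAK

open Pool.Agent.Helper86.CX

theorem mkKN_eq (K : ℕ) : mkKN K = KC - 2 ^ 121 * (Nat.mod K 4294967296 + 2 ^ 256 * u32 K 32 +
    (2 ^ 256) ^ 2 * u32 K 64 + (2 ^ 256) ^ 3 * u32 K 96 + (2 ^ 256) ^ 4 * u32 K 128 +
    (2 ^ 256) ^ 5 * u32 K 160 + (2 ^ 256) ^ 6 * u32 K 192 + (2 ^ 256) ^ 7 * u32 K 224 +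
    (2 ^ 256) ^ 8 * u32 K 256) := rfl

theorem rep_KC : Rep MM KC (pk9 (2 ^ 256) (cstH (2 ^ 152))) := by
  unfold Rep Int.ModEq
  decide +kernel

theorem mkKN_le (X C c : ℕ) (u0 u1 u2 u3 u4 u5 u6 u7 u8 b : ℕ) (h0 : u0 ≤ b) (h1 : u1 ≤ b)
    (h2 : u2 ≤ b) (h3 : u3 ≤ b) (h4 : u4 ≤ b) (h5 : u5 ≤ b) (h6 : u6 ≤ b) (h7 : u7 ≤ b)
    (h8 : u8 ≤ b)
    (h : c * (b + X * b + X ^ 2 * b + X ^ 3 * b + X ^ 4 * b + X ^ 5 * b + X ^ 6 * b + X ^ 7 * b +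
      X ^ 8 * b) ≤ C) :
    c * (u0 + X * u1 + X ^ 2 * u2 + X ^ 3 * u3 + X ^ 4 * u4 + X ^ 5 * u5 + X ^ 6 * u6 +
      X ^ 7 * u7 + X ^ 8 * u8) ≤ C := by
  refine le_trans ?_ h
  gcongr

theorem mkKN_rep (K : ℕ) : Rep MM (mkKN K) (pk9 (2 ^ 256) (smulH (-2 ^ 121) (kz K))) := by
  rw [mkKN_eq, ← u32_zero]
  have key : ∀ k, u32 K k ≤ 2 ^ 32 - 1 := fun k => Nat.le_pred_of_lt (u32_lt K k)
  have hle := mkKN_le (2 ^ 256) KC (2 ^ 121) (u32 K 0) (u32 K 32) (u32 K 64) (u32 K 96)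
    (u32 K 128) (u32 K 160) (u32 K 192) (u32 K 224) (u32 K 256) (2 ^ 32 - 1) (key _) (key _)
    (key _) (key _) (key _) (key _) (key _) (key _) (key _) (by decide +kernel)
  have h := rep_KC.sub (Rep.nat MM _) hle
  have e : ∀ X : ℤ, pk9 X (cstH (2 ^ 152)) - 2 ^ 121 * ((u32 K 0 : ℤ) + X * u32 K 32 +
      X ^ 2 * u32 K 64 + X ^ 3 * u32 K 96 + X ^ 4 * u32 K 128 + X ^ 5 * u32 K 160 +
      X ^ 6 * u32 K 192 + X ^ 7 * u32 K 224 + X ^ 8 * u32 K 256) =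
      pk9 X (smulH (-2 ^ 121) (kz K)) := by
    intro X
    simp only [pk9, smulH, kz, cstH]
    ring
  rw [← e]
  have e2 : ∀ X : ℕ, ((2 ^ 121 * (u32 K 0 + X * u32 K 32 +
      X ^ 2 * u32 K 64 + X ^ 3 * u32 K 96 + X ^ 4 * u32 K 128 + X ^ 5 * u32 K 160 +
      X ^ 6 * u32 K 192 + X ^ 7 * u32 K 224 + X ^ 8 * u32 K 256) : ℕ) : ℤ) =
      2 ^ 121 * ((u32 K 0 : ℤ) + (X : ℤ) * u32 K 32 +
      (X : ℤ) ^ 2 * u32 K 64 + (X : ℤ) ^ 3 * u32 K 96 + (X : ℤ) ^ 4 * u32 K 128 +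
      (X : ℤ) ^ 5 * u32 K 160 +
      (X : ℤ) ^ 6 * u32 K 192 + (X : ℤ) ^ 7 * u32 K 224 + (X : ℤ) ^ 8 * u32 K 256) := by
    intro X
    push_cast
    rfl
  rw [e2] at h
  have e3 : ((2 ^ 256 : ℕ) : ℤ) = 2 ^ 256 := by norm_num
  rw [e3] at h
  exact h

/-! ### bounds of the form of a run -/

theorem tb {x y q b c : ℤ} (hx : |x| ≤ b) (hy : |y| ≤ b) (hq : |q| ≤ c) :
    -(b * b * c) ≤ x * y * q ∧ x * y * q ≤ b * b * c :=
  abs_le.1 (abs_mul_le (abs_mul_le hx hy) hq)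

theorem NBz_bd {O R A W T b c : ℤ} {Q : Hm ℤ} (hO : |O| ≤ b) (hR : |R| ≤ b) (hA : |A| ≤ b)
    (hW : |W| ≤ b) (hT : |T| ≤ b) (hQ : Bd c Q) : Bd (9 * (b * b * c)) (NBz O R A W T Q) := by
  obtain ⟨qa, qb, qc, qd, qe, qf, qg, qh, qi⟩ := hQ
  have hm : 0 ≤ b * b * c := by
    have hb : 0 ≤ b := (abs_nonneg _).trans hO
    have hc : 0 ≤ c := (abs_nonneg _).trans qa
    positivity
  refine ⟨abs_le.2 ?_, abs_le.2 ?_, abs_le.2 ?_, abs_le.2 ?_, abs_le.2 ?_, abs_le.2 ?_,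
    abs_le.2 ?_, abs_le.2 ?_, abs_le.2 ?_⟩ <;> simp only [NBz]
  · have t1 := tb hO hO qa
    have t2 := tb hR hR qb
    have t3 := tb hW hW qc
    have t4 := tb hO hR qd
    have t5 := tb hO hW qf
    have t6 := tb hR hW qh
    constructor <;> linarith
  · have t1 := tb hR hR qa
    have t2 := tb hA hA qb
    have t3 := tb hR hA qd
    constructor <;> linarith
  · have t1 := tb hA hA qa
    have t2 := tb hT hT qb
    have t3 := tb hA hT qd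
    constructor <;> linarith
  · have t1 := tb hO hR qa
    have t2 := tb hR hA qb
    have t3 := tb hO hA qd
    have t4 := tb hR hR qd
    have t5 := tb hR hW qf
    have t6 := tb hW hA qh
    constructor <;> linarith
  · have t3 := tb hO hA qe
    have t4 := tb hR hR qe
    have t5 := tb hR hW qg
    have t6 := tb hW hA qi
    constructor <;> linarith
  · have t1 := tb hO hA qa
    have t2 := tb hR hT qb
    have t3 := tb hR hA qd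
    have t4 := tb hO hT qd
    have t5 := tb hW hA qf
    have t6 := tb hW hT qh
    constructor <;> linarith
  · have t3 := tb hO hT qe
    have t4 := tb hR hA qe
    have t5 := tb hW hA qg
    have t6 := tb hW hT qi
    constructor <;> linarith
  · have t1 := tb hR hA qa
    have t2 := tb hA hT qb
    have t3 := tb hA hA qd
    have t4 := tb hR hT qd
    constructor <;> linarith
  · have t1 := tb hR hT qe
    have t2 := tb hA hA qe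
    constructor <;> linarith

/-! ### the block tests -/

/-- the form of the block test: `B^T P B - slack - L`, `L` in units `2 ^ 121` -/
def blkF (O R A W T : ℤ) (Q L : Hm ℤ) : Hm ℤ :=
  addH (addH (NBz O R A W T Q) (idH (-2 ^ 136))) (smulH (-2 ^ 121) L)

theorem blkF_bd {O R A W T : ℤ} {Q L : Hm ℤ} (hO : |O| ≤ 2 ^ 56) (hR : |R| ≤ 2 ^ 56)
    (hA : |A| ≤ 2 ^ 56) (hW : |W| ≤ 2 ^ 56) (hT : |T| ≤ 2 ^ 56) (hQ : Bd (2 ^ 76) Q)
    (hL : Bd (2 ^ 64) L) : Bd (2 ^ 255 - 1) (blkF O R A W T Q L) := by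
  have h1 := NBz_bd hO hR hA hW hT hQ
  have h2 : Bd (2 ^ 136) (idH (-2 ^ 136)) := by
    have h := Bd.id (r := 2 ^ 136) (by positivity)
    obtain ⟨q1, q2, q3, q4, q5, q6, q7, q8, q9⟩ := h
    have q : |(-2 ^ 136 : ℤ)| ≤ 2 ^ 136 := by rw [abs_neg, abs_of_nonneg (by positivity)]
    exact ⟨q, q, q, q4, q5, q6, q7, q8, q9⟩
  have h3 : Bd (2 ^ 121 * 2 ^ 64) (smulH (-2 ^ 121) L) :=
    Bd.smul (by rw [abs_neg, abs_of_nonneg (by positivity)]) hL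
  exact ((h1.add h2).add h3).mono (by decide +kernel)

theorem blk_gen {P : P9} {Q L : Hm ℤ} {V : VR} {O R A W T : ℤ} {x : ℕ}
    (hP : EncP P Q) (hV : EncV V O R A W T)
    (hO : |O| ≤ 2 ^ 56) (hR : |R| ≤ 2 ^ 56)
    (hA : |A| ≤ 2 ^ 56) (hW : |W| ≤ 2 ^ 56) (hT : |T| ≤ 2 ^ 56) (hQ : Bd (2 ^ 76) Q)
    (hL : Bd (2 ^ 64) L) (hx : Rep MM x (pk9 (2 ^ 256) (smulH (-2 ^ 121) L)))
    (h : psd (Nat.mod (Nat.add (dotV P V) x) MM) = true) : PDz (blkF O R A W T Q L) := by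
  refine psd_sound (X := dotV P V + x) ?_ (blkF_bd hO hR hA hW hT hQ hL) h
  have h1 := (dotV_rep hP hV).add hx
  rw [pk9_add] at h1
  have e : addH (addH (addH (NBz O R A W T Q) (idH (-2 ^ 136))) (cstH (2 ^ 255)))
      (smulH (-2 ^ 121) L) = addH (blkF O R A W T Q L) (cstH (2 ^ 255)) := by
    simp only [blkF, addH, Hm.mk.injEq]
    refine ⟨?_, ?_, ?_, ?_, ?_, ?_, ?_, ?_, ?_⟩ <;> ring
  rw [e] at h1
  exact h1

theorem smulH_smulH (a b : ℤ) (N : Hm ℤ) : smulH a (smulH b N) = smulH (a * b) N := by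
  simp only [smulH, Hm.mk.injEq]
  refine ⟨?_, ?_, ?_, ?_, ?_, ?_, ?_, ?_, ?_⟩ <;> ring

/-- the test at an end: `lam K` in units `2 ^ 122` -/
theorem blk_pd {P : P9} {Q : Hm ℤ} {V : VR} {O R A W T : ℤ} {lam K : ℕ}
    (hP : EncP P Q) (hV : EncV V O R A W T)
    (hO : |O| ≤ 2 ^ 56) (hR : |R| ≤ 2 ^ 56)
    (hA : |A| ≤ 2 ^ 56) (hW : |W| ≤ 2 ^ 56) (hT : |T| ≤ 2 ^ 56) (hQ : Bd (2 ^ 76) Q)
    (hl : lam < 2 ^ 32) (h : blk (dotV P V) lam (mkKN K) = true) :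
    PDz (blkF O R A W T Q (smulH (2 * lam) (kz K))) := by
  have hl1 : |(2 * (lam : ℤ))| ≤ 2 ^ 33 := by
    have h1 : (lam : ℤ) < 2 ^ 32 := by exact_mod_cast hl
    have h2 : (0 : ℤ) ≤ lam := by positivity
    rw [abs_of_nonneg (by positivity)]
    linarith
  have hx : Rep MM (2 * lam * mkKN K)
      (pk9 (2 ^ 256) (smulH (-2 ^ 121) (smulH (2 * lam) (kz K)))) := by
    have h1 := ((Rep.nat MM 2).mul (Rep.nat MM lam)).mul (mkKN_rep K)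
    rw [pk9_smul, smulH_smulH] at h1
    have e : ((2 : ℕ) : ℤ) * (lam : ℤ) * (-2 ^ 121) = -2 ^ 121 * (2 * (lam : ℤ)) := by
      push_cast; ring
    rw [e, ← smulH_smulH] at h1
    exact h1
  exact blk_gen hP hV hO hR hA hW hT hQ
    ((Bd.smul hl1 (kz_bd K)).mono (by decide +kernel)) hx h

/-- the test at the middle control -/
theorem blkc_pd {P : P9} {Q : Hm ℤ} {V : VR} {O R A W T : ℤ} {l0 l1 K0 K1 : ℕ}
    (hP : EncP P Q) (hV : EncV V O R A W T)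
    (hO : |O| ≤ 2 ^ 56) (hR : |R| ≤ 2 ^ 56)
    (hA : |A| ≤ 2 ^ 56) (hW : |W| ≤ 2 ^ 56) (hT : |T| ≤ 2 ^ 56) (hQ : Bd (2 ^ 76) Q)
    (hl0 : l0 < 2 ^ 32) (hl1 : l1 < 2 ^ 32)
    (h : blkc (dotV P V) l0 l1 (mkKN K0) (mkKN K1) = true) :
    PDz (blkF O R A W T Q (addH (smulH l0 (kz K1)) (smulH l1 (kz K0)))) := by
  have key : ∀ l : ℕ, l < 2 ^ 32 → |(l : ℤ)| ≤ 2 ^ 32 := by
    intro l hl
    have h1 : (l : ℤ) < 2 ^ 32 := by exact_mod_cast hl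
    have h2 : (0 : ℤ) ≤ l := by positivity
    rw [abs_of_nonneg (by positivity)]
    linarith
  have hx : Rep MM (l0 * mkKN K1 + l1 * mkKN K0)
      (pk9 (2 ^ 256) (smulH (-2 ^ 121) (addH (smulH l0 (kz K1)) (smulH l1 (kz K0))))) := by
    have h1 := ((Rep.nat MM l0).mul (mkKN_rep K1)).add ((Rep.nat MM l1).mul (mkKN_rep K0))
    rw [pk9_smul, pk9_smul, pk9_add] at h1
    have e : addH (smulH (l0 : ℤ) (smulH (-2 ^ 121) (kz K1)))
        (smulH (l1 : ℤ) (smulH (-2 ^ 121) (kz K0))) =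
        smulH (-2 ^ 121) (addH (smulH l0 (kz K1)) (smulH l1 (kz K0))) := by
      simp only [smulH, addH, Hm.mk.injEq]
      refine ⟨?_, ?_, ?_, ?_, ?_, ?_, ?_, ?_, ?_⟩ <;> ring
    rw [e] at h1
    exact h1
  exact blk_gen hP hV hO hR hA hW hT hQ
    (((Bd.smul (key l0 hl0) (kz_bd K1)).add (Bd.smul (key l1 hl1) (kz_bd K0))).mono
      (by decide +kernel)) hx h

end Pool.Agent.Helper17.PAK
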