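import Pool.Agent.Helper17.C75.Kp5
import Pool.Agent.Helper12.CX.KVR

/-! Row KPD of the kernel checker for MP_c75db0: bridge to the run constants of row KVR. -/

set_option autoImplicit false
set_option exponentiation.threshold 4000
noncomputable section
namespace Pool.Agent.Helper17.PAK

open Pool.Agent.Helper86.CX

theorem rep_toNat (x : ℤ) : Rep MM (x % 2 ^ 2304).toNat x := by
  unfold Rep
  have h : ((x % 2 ^ 2304).toNat : ℤ) = x % 2 ^ 2304 :=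
    Int.toNat_of_nonneg (Int.emod_nonneg _ (by positivity))
  have hM : (MM : ℤ) = 2 ^ 2304 := by
    rw [MM_eq]
    push_cast
  rw [h, hM]
  exact Int.mod_modEq _ _

theorem rep_vrec (a b c d e f g h i : ℤ) :
    Rep MM (Pool.Agent.Helper6.MONO.pk9 a b c d e f g h i)
      (pk9 (2 ^ 256) ⟨a, b, c, d, e, f, g, h, i⟩) := by
  have h1 := rep_toNat ((a + 2 ^ 256 * (b + 2 ^ 256 * (c + 2 ^ 256 * (d + 2 ^ 256 * (e +
    2 ^ 256 * (f + 2 ^ 256 * (g + 2 ^ 256 * (h + 2 ^ 256 * i)))))))))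
  have e1 : ∀ X : ℤ, (a + X * (b + X * (c + X * (d + X * (e +
    X * (f + X * (g + X * (h + X * i)))))))) = pk9 X ⟨a, b, c, d, e, f, g, h, i⟩ := by
    intro X
    simp only [pk9]
    ring
  rw [e1] at h1
  rw [← e1] at h1 ⊢
  exact h1

theorem encV_vrec (R A W T : ℤ) :
    EncV (Pool.Agent.Helper6.MONO.vrec R A W T) (2 ^ 48) R A W T := by
  have key : ∀ (n : ℕ) (M N : Hm ℤ), Rep MM n (pk9 (2 ^ 256) M) → M = N →
      Rep MM n (pk9 (2 ^ 256) N) := by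
    intro n M N h1 h2
    rw [← h2]
    exact h1
  refine ⟨key _ _ _ (rep_vrec _ _ _ _ _ _ _ _ _) ?_, key _ _ _ (rep_vrec _ _ _ _ _ _ _ _ _) ?_,
    key _ _ _ (rep_vrec _ _ _ _ _ _ _ _ _) ?_, key _ _ _ (rep_vrec _ _ _ _ _ _ _ _ _) ?_,
    key _ _ _ (rep_vrec _ _ _ _ _ _ _ _ _) ?_, key _ _ _ (rep_vrec _ _ _ _ _ _ _ _ _) ?_,
    key _ _ _ (rep_vrec _ _ _ _ _ _ _ _ _) ?_, key _ _ _ (rep_vrec _ _ _ _ _ _ _ _ _) ?_,
    key _ _ _ (rep_vrec _ _ _ _ _ _ _ _ _) ?_⟩ <;>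
  · simp only [NBz, Hm.mk.injEq]
    refine ⟨?_, ?_, ?_, ?_, ?_, ?_, ?_, ?_, ?_⟩ <;> ring

end Pool.Agent.Helper17.PAK
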