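import Pool.Agent.Helper17.C75.Kp5

/-! Row KPD of the kernel checker for MP_c75db0: vector tests, static tests, slit tests. -/

set_option autoImplicit false
set_option exponentiation.threshold 4000
noncomputable section
namespace Pool.Agent.Helper17.PAK

open Pool.Agent.Helper86.CX
open Complex ComplexConjugate

/-! ### the test at a vector -/

theorem stv_int {P : P9} {Q : Hm ℤ} (hP : EncP P Q) (hQ : Bd (2 ^ 2200) Q) {p q : ℕ}
    (hp : p ≤ 1024) (hq : q ≤ 1024) (h : stv p q P = true) :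
    0 < 409600 * Q.a + (p : ℤ) * p * Q.b + (q : ℤ) * q * Q.c +
      1280 * (p * Q.d + q * Q.f) + 2 * p * q * Q.h := by
  obtain ⟨a1, a2, a3, a4, a5, a6, a7, a8, a9⟩ := hP
  obtain ⟨q1, q2, q3, q4, q5, q6, q7, q8, q9⟩ := hQ
  have rp := Rep.nat MM p
  have rq := Rep.nat MM q
  have h1 := (((((Rep.nat MM 409600).mul a1).add ((rp.mul rp).mul a2)).add
    ((rq.mul rq).mul a3)).add ((Rep.nat MM 1280).mul ((rp.mul a4).add (rq.mul a6)))).add
    ((((Rep.nat MM 2).mul rp).mul rq).mul a8)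
  push_cast at h1
  refine posM_sound h1 ?_ h
  have hp1 : |(p : ℤ)| ≤ 1024 := by
    rw [abs_of_nonneg (by positivity)]; exact_mod_cast hp
  have hq1 : |(q : ℤ)| ≤ 1024 := by
    rw [abs_of_nonneg (by positivity)]; exact_mod_cast hq
  have k0 : |(409600 : ℤ)| ≤ 409600 := by norm_num
  have k1 : |(1280 : ℤ)| ≤ 1280 := by norm_num
  have k2 : |(2 : ℤ)| ≤ 2 := by norm_num
  have t1 := abs_mul_le k0 q1
  have t2 := abs_mul_le (abs_mul_le hp1 hp1) q2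
  have t3 := abs_mul_le (abs_mul_le hq1 hq1) q3
  have t4 := abs_mul_le k1 ((abs_add_le _ _).trans (add_le_add (abs_mul_le hp1 q4)
    (abs_mul_le hq1 q6)))
  have t5 := abs_mul_le (abs_mul_le (abs_mul_le k2 hp1) hq1) q8
  refine ((abs_add_le _ _).trans (add_le_add ((abs_add_le _ _).trans (add_le_add
    ((abs_add_le _ _).trans (add_le_add ((abs_add_le _ _).trans (add_le_add t1 t2)) t3))
    t4)) t5)).trans ?_
  decide +kernel

/-- the vector `(1, p/640, q/640)` -/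
def vpq (p q : ℕ) : Fin 3 → ℂ := ![1, ((p / 640 : ℝ) : ℂ), ((q / 640 : ℝ) : ℂ)]

theorem stv_ev {P : P9} {Q : Hm ℤ} (hP : EncP P Q) (hQ : Bd (2 ^ 2200) Q) {p q : ℕ}
    (hp : p ≤ 1024) (hq : q ≤ 1024) (h : stv p q P = true) {s : ℝ} (hs : 0 < s) :
    0 < ev (sc s Q) (vpq p q) := by
  have h1 := stv_int hP hQ hp hq h
  have h2 : (0 : ℝ) < 409600 * Q.a + (p : ℝ) * p * Q.b + (q : ℝ) * q * Q.c +
      1280 * (p * Q.d + q * Q.f) + 2 * p * q * Q.h := by exact_mod_cast h1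
  have e : ev (sc s Q) (vpq p q) = (409600 * Q.a + (p : ℝ) * p * Q.b + (q : ℝ) * q * Q.c +
      1280 * (p * Q.d + q * Q.f) + 2 * p * q * Q.h) / (409600 * s) := by
    rw [ev_lin]
    have v0 : vpq p q 0 = ((1 : ℝ) : ℂ) := by simp [vpq]
    have v1 : vpq p q 1 = ((p / 640 : ℝ) : ℂ) := rfl
    have v2 : vpq p q 2 = ((q / 640 : ℝ) : ℂ) := rfl
    rw [v0, v1, v2]
    simp only [conj_ofReal, ← ofReal_mul, ofReal_re, ofReal_im, normSq_ofReal, sc]
    field_simp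
    ring
  rw [e]
  positivity

theorem tst_ev {P : P9} {Q : Hm ℤ} (hP : EncP P Q) (hQ : Bd (2 ^ 2200) Q)
    (h : tst P = true) {s : ℝ} (hs : 0 < s) :
    0 < ev (sc s Q) (vpq 192 640) ∧ 0 < ev (sc s Q) (vpq 197 640) ∧
      0 < ev (sc s Q) (vpq 192 645) := by
  unfold tst at h
  simp only [andB_iff] at h
  obtain ⟨h1, h2, h3⟩ := h
  exact ⟨stv_ev hP hQ (by norm_num) (by norm_num) h1 hs,
    stv_ev hP hQ (by norm_num) (by norm_num) h2 hs,
    stv_ev hP hQ (by norm_num) (by norm_num) h3 hs⟩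

/-! ### static tests -/

theorem rep_add' {M n m : ℕ} {x y z : ℤ} (hx : Rep M n x) (hy : Rep M m y) (h : x + y = z) :
    Rep M (Nat.add n m) z := by
  rw [← h]
  exact hx.add hy

theorem v32_rep (K k : ℕ) : Rep M2 (v32 K k) ((u32 K k : ℤ) - 2 ^ 31) := by
  unfold v32
  refine rep_add' (y := -2 ^ 31) (Rep.nat M2 (u32 K k)) ?_ (by ring)
  unfold Rep Int.ModEq
  decide +kernel

theorem st1_int {K : ℕ} (h : st1 K = true) : (kz K).b + 1024 < 0 ∧
    0 < ((kz K).b + 1024) * ((kz K).c + 1024) -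
      ((kz K).h * (kz K).h + (kz K).i * (kz K).i) := by
  unfold st1 st1' at h
  simp only [andB_iff] at h
  obtain ⟨h1, h2⟩ := h
  obtain ⟨q1, q2, q3, q4, q5, q6, q7, q8, q9⟩ := kz_bd K
  have rb : Rep M2 (Nat.add (v32 K 32) 1024) ((kz K).b + 1024) := by
    have h := (v32_rep K 32).add (Rep.nat M2 1024)
    push_cast at h
    exact h
  have rc : Rep M2 (Nat.add (v32 K 64) 1024) ((kz K).c + 1024) := by
    have h := (v32_rep K 64).add (Rep.nat M2 1024)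
    push_cast at h
    exact h
  have rh : Rep M2 (v32 K 224) (kz K).h := v32_rep K 224
  have ri : Rep M2 (v32 K 256) (kz K).i := v32_rep K 256
  have k1 : |(1024 : ℤ)| ≤ 1024 := by norm_num
  have bb : |(kz K).b + 1024| ≤ 2 ^ 31 + 1024 := (abs_add_le _ _).trans (add_le_add q2 k1)
  have bc : |(kz K).c + 1024| ≤ 2 ^ 31 + 1024 := (abs_add_le _ _).trans (add_le_add q3 k1)
  constructor
  · have h3 := rep_N2.mul rb
    have h4 : 0 < -1 * ((kz K).b + 1024) := by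
      refine pos2_sound h3 ?_ h1
      rw [neg_one_mul, abs_neg]
      exact bb.trans (by decide +kernel)
    linarith
  · have h3 := (rb.mul rc).add (rep_N2.mul ((rh.mul rh).add (ri.mul ri)))
    have e : ((kz K).b + 1024) * ((kz K).c + 1024) +
        -1 * ((kz K).h * (kz K).h + (kz K).i * (kz K).i) =
        ((kz K).b + 1024) * ((kz K).c + 1024) -
          ((kz K).h * (kz K).h + (kz K).i * (kz K).i) := by ring
    rw [e] at h3
    refine pos2_sound h3 ?_ h2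
    have t1 := abs_mul_le bb bc
    have t2 := abs_mul_le q8 q8
    have t3 := abs_mul_le q9 q9
    have t4 := abs_le.1 t1
    have t5 := abs_le.1 t2
    have t6 := abs_le.1 t3
    have c1 : (2 ^ 31 + 1024 : ℤ) * (2 ^ 31 + 1024) + 2 ^ 31 * 2 ^ 31 + 2 ^ 31 * 2 ^ 31 ≤
      2 ^ 1151 := by decide +kernel
    exact abs_le.2 ⟨by linarith, by linarith⟩

theorem st1_ev {K : ℕ} (h : st1 K = true) {v : Fin 3 → ℂ} (hv : v 0 = 0) :
    ev (sc (2 ^ 20) (kz K)) v ≤ -(1 / 2 ^ 10) * nrm v := by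
  obtain ⟨h1, h2⟩ := st1_int h
  have g1 : ((kz K).b : ℝ) + 1024 < 0 := by exact_mod_cast h1
  have g2 : (0 : ℝ) < ((kz K).b + 1024) * ((kz K).c + 1024) -
      ((kz K).h * (kz K).h + (kz K).i * (kz K).i) := by exact_mod_cast h2
  have h5 := ev_id2 ((kz K).b + 1024) ((kz K).c + 1024) (kz K).h (kz K).i (v 1) (v 2)
  have h6 : 0 ≤ (((kz K).b : ℝ) + 1024) * ((((kz K).b : ℝ) + 1024) * normSq (v 1) +
      (((kz K).c : ℝ) + 1024) * normSq (v 2) +
      2 * (conj (v 1) * ((((kz K).h : ℝ) : ℂ) + (((kz K).i : ℝ) : ℂ) * I) * v 2).re) := by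
    rw [h5]
    exact add_nonneg (normSq_nonneg _) (mul_nonneg g2.le (normSq_nonneg _))
  have h7 : (((kz K).b : ℝ) + 1024) * normSq (v 1) +
      (((kz K).c : ℝ) + 1024) * normSq (v 2) +
      2 * (conj (v 1) * ((((kz K).h : ℝ) : ℂ) + (((kz K).i : ℝ) : ℂ) * I) * v 2).re ≤ 0 := by
    by_contra hc
    rw [not_le] at hc
    have := mul_neg_of_neg_of_pos g1 hc
    linarith
  have e : ev (sc (2 ^ 20) (kz K)) v = ((kz K).b * normSq (v 1) + (kz K).c * normSq (v 2) +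
      2 * (conj (v 1) * ((((kz K).h : ℝ) : ℂ) + (((kz K).i : ℝ) : ℂ) * I) * v 2).re) /
        2 ^ 20 := by
    rw [ev_lin]
    simp only [sc, hv]
    simp [normSq_apply]
    ring
  rw [e]
  unfold nrm
  rw [hv, map_zero]
  rw [div_le_iff₀ (by positivity)]
  linarith

/-! ### slit tests -/

/-- the form `Re (s conj v0 (v0 + 2 v1 + 2 t v2)) - K` in units `2 ^ (-68)`, minus slack -/
def slF (sr si t : ℤ) (K : Hm ℤ) : Hm ℤ :=
  ⟨2 ^ 48 * (sr - K.a) - 2 ^ 30, -(2 ^ 48 * K.b + 2 ^ 30), -(2 ^ 48 * K.c + 2 ^ 30),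
    2 ^ 48 * (sr - K.d), 2 ^ 48 * (si - K.e), sr * t - 2 ^ 48 * K.f, si * t - 2 ^ 48 * K.g,
    -(2 ^ 48 * K.h), -(2 ^ 48 * K.i)⟩

theorem sl2_pd {sr si t K : ℕ} {sr' si' t' : ℤ} (h1 : Rep M2 sr sr') (h2 : Rep M2 si si')
    (h3 : Rep M2 t t') (b1 : |sr'| ≤ 2 ^ 31) (b2 : |si'| ≤ 2 ^ 31) (b3 : |t'| ≤ 2 ^ 100)
    (h : sl2 sr si t K = true) : PDz (slF sr' si' t' (kz K)) := by
  obtain ⟨q1, q2, q3, q4, q5, q6, q7, q8, q9⟩ := kz_bd K
  have r48 : Rep M2 281474976710656 (2 ^ 48) := by unfold Rep Int.ModEq; decide +kernel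
  have r30 : Rep M2 1073741824 (2 ^ 30) := by unfold Rep Int.ModEq; decide +kernel
  have key : ∀ {n : ℕ} {x y : ℤ}, Rep M2 n x → x = y → Rep M2 n y := by
    intro n x y h1 h2
    rw [← h2]
    exact h1
  refine psd1_sound (N := slF sr' si' t' (kz K))
    (key ((r48.mul (h1.add (rep_N2.mul (v32_rep K 0)))).add (rep_N2.mul r30)) ?_)
    (key (rep_N2.mul ((r48.mul (v32_rep K 32)).add r30)) ?_)
    (key (rep_N2.mul ((r48.mul (v32_rep K 64)).add r30)) ?_)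
    (key (r48.mul (h1.add (rep_N2.mul (v32_rep K 96)))) ?_)
    (key (r48.mul (h2.add (rep_N2.mul (v32_rep K 128)))) ?_)
    (key ((h1.mul h3).add (rep_N2.mul (r48.mul (v32_rep K 160)))) ?_)
    (key ((h2.mul h3).add (rep_N2.mul (r48.mul (v32_rep K 192)))) ?_)
    (key (rep_N2.mul (r48.mul (v32_rep K 224))) ?_)
    (key (rep_N2.mul (r48.mul (v32_rep K 256))) ?_) ?_ h
  · simp only [slF, kz]; ring
  · simp only [slF, kz]; ring
  · simp only [slF, kz]; ring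
  · simp only [slF, kz]; ring
  · simp only [slF, kz]; ring
  · simp only [slF, kz]; ring
  · simp only [slF, kz]; ring
  · simp only [slF, kz]; ring
  · simp only [slF, kz]; ring
  · have t1 := abs_le.1 (abs_mul_le b1 b3)
    have t2 := abs_le.1 (abs_mul_le b2 b3)
    have c1 : (2 : ℤ) ^ 31 * 2 ^ 100 + 2 ^ 48 * (2 ^ 31 + 2 ^ 31) + 2 ^ 30 ≤ 2 ^ 256 := by
      decide +kernel
    have c2 : (0 : ℤ) ≤ 2 ^ 31 * 2 ^ 100 := by positivity
    rw [abs_le] at q1 q2 q3 q4 q5 q6 q7 q8 q9 b1 b2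
    simp only [Bd, slF, abs_le]
    refine ⟨⟨?_, ?_⟩, ⟨?_, ?_⟩, ⟨?_, ?_⟩, ⟨?_, ?_⟩, ⟨?_, ?_⟩, ⟨?_, ?_⟩, ⟨?_, ?_⟩, ⟨?_, ?_⟩,
      ⟨?_, ?_⟩⟩ <;> linarith

theorem re_lin (a b t : ℝ) (v : Fin 3 → ℂ) :
    (((a : ℂ) + (b : ℂ) * I) * conj (v 0) * (v 0 + 2 * v 1 + 2 * (t : ℂ) * v 2)).re =
      a * normSq (v 0) + a * (2 * (conj (v 0) * v 1).re) - b * (2 * (conj (v 0) * v 1).im) +
        a * t * (2 * (conj (v 0) * v 2).re) - b * t * (2 * (conj (v 0) * v 2).im) := by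
  simp [normSq_apply]
  ring

theorem slF_ev {sr si t : ℤ} {K : ℕ} (h : PDz (slF sr si t (kz K))) (v : Fin 3 → ℂ) :
    ev (sc (2 ^ 20) (kz K)) v + (1 / 2 ^ 38) * nrm v ≤
      ((((sr / 2 ^ 20 : ℝ) : ℂ) + ((si / 2 ^ 20 : ℝ) : ℂ) * I) * conj (v 0) *
        (v 0 + 2 * v 1 + 2 * ((t / 2 ^ 48 : ℝ) : ℂ) * v 2)).re := by
  have h1 := PDz_ev h v
  have e : ev (sc 1 (slF sr si t (kz K))) v = 2 ^ 68 *
      (((((sr / 2 ^ 20 : ℝ) : ℂ) + ((si / 2 ^ 20 : ℝ) : ℂ) * I) * conj (v 0) *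
        (v 0 + 2 * v 1 + 2 * ((t / 2 ^ 48 : ℝ) : ℂ) * v 2)).re -
        ev (sc (2 ^ 20) (kz K)) v - (1 / 2 ^ 38) * nrm v) := by
    rw [re_lin, ev_lin, ev_lin]
    simp only [sc, slF, nrm]
    push_cast
    ring
  rw [e] at h1
  have h2 := (mul_nonneg_iff_of_pos_left (show (0 : ℝ) < 2 ^ 68 by positivity)).1 h1
  linarith

end Pool.Agent.Helper17.PAK
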