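import Pool.Agent.Helper17.C75.Kp7

/-! Row KPD of the kernel checker for MP_c75db0: the list programs. -/

set_option autoImplicit false
set_option exponentiation.threshold 4000
noncomputable section
namespace Pool.Agent.Helper17.PAK

open Pool.Agent.Helper86.CX
open Complex ComplexConjugate

/-- quadratic combination of three control forms -/
def combH (t : ℝ) (P Q R : Hm ℝ) : Hm ℝ :=
  ⟨(1 - t) ^ 2 * P.a + 2 * t * (1 - t) * Q.a + t ^ 2 * R.a,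
   (1 - t) ^ 2 * P.b + 2 * t * (1 - t) * Q.b + t ^ 2 * R.b,
   (1 - t) ^ 2 * P.c + 2 * t * (1 - t) * Q.c + t ^ 2 * R.c,
   (1 - t) ^ 2 * P.d + 2 * t * (1 - t) * Q.d + t ^ 2 * R.d,
   (1 - t) ^ 2 * P.e + 2 * t * (1 - t) * Q.e + t ^ 2 * R.e,
   (1 - t) ^ 2 * P.f + 2 * t * (1 - t) * Q.f + t ^ 2 * R.f,
   (1 - t) ^ 2 * P.g + 2 * t * (1 - t) * Q.g + t ^ 2 * R.g,
   (1 - t) ^ 2 * P.h + 2 * t * (1 - t) * Q.h + t ^ 2 * R.h,
   (1 - t) ^ 2 * P.i + 2 * t * (1 - t) * Q.i + t ^ 2 * R.i⟩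

/-- affine combination of two forms -/
def lineH (t : ℝ) (P R : Hm ℝ) : Hm ℝ :=
  ⟨(1 - t) * P.a + t * R.a, (1 - t) * P.b + t * R.b, (1 - t) * P.c + t * R.c,
   (1 - t) * P.d + t * R.d, (1 - t) * P.e + t * R.e, (1 - t) * P.f + t * R.f,
   (1 - t) * P.g + t * R.g, (1 - t) * P.h + t * R.h, (1 - t) * P.i + t * R.i⟩

theorem ev_combH (t : ℝ) (P Q R : Hm ℝ) (v : Fin 3 → ℂ) :
    ev (combH t P Q R) v = (1 - t) ^ 2 * ev P v + 2 * t * (1 - t) * ev Q v + t ^ 2 * ev R v := by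
  rw [ev_lin, ev_lin, ev_lin, ev_lin]
  simp only [combH]
  ring

theorem ev_lineH (t : ℝ) (P R : Hm ℝ) (v : Fin 3 → ℂ) :
    ev (lineH t P R) v = (1 - t) * ev P v + t * ev R v := by
  rw [ev_lin, ev_lin, ev_lin]
  simp only [lineH]
  ring

theorem NB_combH (t : ℝ) (P Q S : Hm ℝ) (R A W T : ℝ) :
    NB (combH t P Q S) R A W T = combH t (NB P R A W T) (NB Q R A W T) (NB S R A W T) := by
  simp only [NB, combH, Hm.mk.injEq]
  refine ⟨?_, ?_, ?_, ?_, ?_, ?_, ?_, ?_, ?_⟩ <;> ring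

/-- the conclusion of the three tests of a block at one corner -/
def BIneq (Qa Qc Qb : Hm ℤ) (R A W T : ℤ) (l0 l1 K0 K1 : ℕ) : Prop :=
  ∀ t : ℝ, 0 ≤ t → t ≤ 1 → ∀ v : Fin 3 → ℂ,
    ((1 - t) * (l0 / 2 ^ 24) + t * (l1 / 2 ^ 24)) *
        ev (lineH t (sc (2 ^ 20) (kz K0)) (sc (2 ^ 20) (kz K1))) v + (1 / 2 ^ 30) * nrm v ≤
      ev (NB (combH t (sc (2 ^ 70) Qa) (sc (2 ^ 70) Qc) (sc (2 ^ 70) Qb)) (R / 2 ^ 48)
        (A / 2 ^ 48) (W / 2 ^ 48) (T / 2 ^ 48)) v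

theorem three_ev {Pa Pc Pb : P9} {Qa Qc Qb : Hm ℤ} {V : VR} {R A W T : ℤ} {l0 l1 K0 K1 : ℕ}
    (ha : EncP Pa Qa) (hc : EncP Pc Qc) (hb : EncP Pb Qb) (hV : EncV V (2 ^ 48) R A W T)
    (hR : |R| ≤ 2 ^ 56) (hA : |A| ≤ 2 ^ 56) (hW : |W| ≤ 2 ^ 56) (hT : |T| ≤ 2 ^ 56)
    (qa : Bd (2 ^ 76) Qa) (qc : Bd (2 ^ 76) Qc) (qb : Bd (2 ^ 76) Qb)
    (hl0 : l0 < 2 ^ 32) (hl1 : l1 < 2 ^ 32)
    (h1 : blk (dotV Pa V) l0 (mkKN K0) = true) (h2 : blk (dotV Pb V) l1 (mkKN K1) = true)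
    (h3 : blkc (dotV Pc V) l0 l1 (mkKN K0) (mkKN K1) = true) :
    BIneq Qa Qc Qb R A W T l0 l1 K0 K1 := by
  intro t t0 t1 v
  have e1 := blk_ev ha hV hR hA hW hT qa hl0 h1 v
  have e2 := blk_ev hb hV hR hA hW hT qb hl1 h2 v
  have e3 := blkc_ev hc hV hR hA hW hT qc hl0 hl1 h3 v
  rw [NB_combH, ev_combH, ev_lineH]
  have w0 : 0 ≤ (1 - t) ^ 2 := sq_nonneg _
  have w1 : 0 ≤ 2 * t * (1 - t) := by
    have : 0 ≤ 1 - t := by linarith
    positivity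
  have w2 : 0 ≤ t ^ 2 := sq_nonneg _
  have f1 := mul_le_mul_of_nonneg_left e1 w0
  have f2 := mul_le_mul_of_nonneg_left e3 w1
  have f3 := mul_le_mul_of_nonneg_left e2 w2
  refine le_trans (le_of_eq ?_) (add_le_add (add_le_add f1 f2) f3)
  ring

theorem chkS_sound {Pa Pc Pb : P9} {V : VR} {KT : K2} {LT : ℕ} {s : List SE}
    (h : chkS Pa Pc Pb V KT LT s = true) : ∀ x ∈ s,
    blk (dotV Pa V) (u32 LT (64 * x.l)) (mkKN (kf KT.s x.k)) = true ∧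
    blk (dotV Pb V) (u32 LT (64 * x.l + 32)) (mkKN (kf KT.t x.k)) = true ∧
    blkc (dotV Pc V) (u32 LT (64 * x.l)) (u32 LT (64 * x.l + 32))
        (mkKN (kf KT.s x.k)) (mkKN (kf KT.t x.k)) = true := by
  induction s with
  | nil => intro x hx; cases hx
  | cons y s ih =>
      have h' : andB (blk (dotV Pa V) (u32 LT (64 * y.l)) (mkKN (kf KT.s y.k)))
        (andB (blk (dotV Pb V) (u32 LT (64 * y.l + 32)) (mkKN (kf KT.t y.k)))
        (andB (blkc (dotV Pc V) (u32 LT (64 * y.l)) (u32 LT (64 * y.l + 32))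
          (mkKN (kf KT.s y.k)) (mkKN (kf KT.t y.k))) (chkS Pa Pc Pb V KT LT s))) = true := h
      simp only [andB_iff] at h'
      obtain ⟨a1, a2, a3, a4⟩ := h'
      intro x hx
      rcases List.mem_cons.1 hx with rfl | hx
      · exact ⟨a1, a2, a3⟩
      · exact ih a4 x hx

theorem chkB_sound {Pa Pc Pb : P9} {KT : K2} {LT : ℕ} {b : List BE}
    (h : chkB Pa Pc Pb KT LT b = true) : ∀ x ∈ b, chkS Pa Pc Pb x.V KT LT x.s = true := by
  induction b with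
  | nil => intro x hx; cases hx
  | cons y b ih =>
      have h' : andB (chkS Pa Pc Pb y.V KT LT y.s) (chkB Pa Pc Pb KT LT b) = true := h
      rw [andB_iff] at h'
      intro x hx
      rcases List.mem_cons.1 hx with rfl | hx
      · exact h'.1
      · exact ih h'.2 x hx

/-- THE BLOCK TESTS OF A TARGET FORM AT A CORNER -/
theorem chkP_sound {KT : K2} {LT : ℕ} {b : List BE} {Pa Pc Pb : P9} {Qa Qc Qb : Hm ℤ}
    (ha : EncP Pa Qa) (hc : EncP Pc Qc) (hb : EncP Pb Qb)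
    (qa : Bd (2 ^ 2302) Qa) (qc : Bd (2 ^ 2302) Qc) (qb : Bd (2 ^ 2302) Qb)
    (h : chkP KT LT b Pa Pc Pb = true) :
    ∀ x ∈ b, ∀ y ∈ x.s, ∀ R A W T : ℤ, EncV x.V (2 ^ 48) R A W T → |R| ≤ 2 ^ 56 →
      |A| ≤ 2 ^ 56 → |W| ≤ 2 ^ 56 → |T| ≤ 2 ^ 56 →
      BIneq Qa Qc Qb R A W T (u32 LT (64 * y.l)) (u32 LT (64 * y.l + 32)) (kf KT.s y.k)
        (kf KT.t y.k) := by
  unfold chkP at h
  simp only [andB_iff] at h
  obtain ⟨h1, h2, h3, h4⟩ := h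
  intro x hx y hy R A W T hV hR hA hW hT
  obtain ⟨s1, s2, s3⟩ := chkS_sound (chkB_sound h4 x hx) y hy
  exact three_ev ha hc hb hV hR hA hW hT (rng9_sound ha qa h1) (rng9_sound hc qc h2)
    (rng9_sound hb qb h3) (u32_lt _ _) (u32_lt _ _) s1 s2 s3

/-- THE VECTOR TESTS -/
theorem chkT_sound {KT : K2} {LT : ℕ} {b : List BE} {Pa Pc Pb : P9} {Qa Qc Qb : Hm ℤ}
    (ha : EncP Pa Qa) (hc : EncP Pc Qc) (hb : EncP Pb Qb)
    (qa : Bd (2 ^ 2200) Qa) (qc : Bd (2 ^ 2200) Qc) (qb : Bd (2 ^ 2200) Qb)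
    (h : chkT KT LT b Pa Pc Pb = true) {t : ℝ} (t0 : 0 ≤ t) (t1 : t ≤ 1) :
    ∀ v : Fin 3 → ℂ, v = vpq 192 640 ∨ v = vpq 197 640 ∨ v = vpq 192 645 →
      0 < ev (combH t (sc (2 ^ 70) Qa) (sc (2 ^ 70) Qc) (sc (2 ^ 70) Qb)) v := by
  unfold chkT at h
  simp only [andB_iff] at h
  obtain ⟨h1, h2, h3⟩ := h
  have p : (0 : ℝ) < 2 ^ 70 := by positivity
  obtain ⟨x1, x2, x3⟩ := tst_ev ha qa h1 p
  obtain ⟨y1, y2, y3⟩ := tst_ev hc qc h2 p
  obtain ⟨z1, z2, z3⟩ := tst_ev hb qb h3 p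
  have key : ∀ x y z : ℝ, 0 < x → 0 < y → 0 < z →
      0 < (1 - t) ^ 2 * x + 2 * t * (1 - t) * y + t ^ 2 * z := by
    intro x y z hx hy hz
    have ht : 0 ≤ 1 - t := by linarith
    rcases eq_or_lt_of_le t0 with h | h
    · rw [← h]; simpa using hx
    · have : 0 < t ^ 2 * z := by positivity
      have h1 : 0 ≤ (1 - t) ^ 2 * x := by positivity
      have h2 : 0 ≤ 2 * t * (1 - t) * y := by positivity
      linarith
  intro v hv
  rw [ev_combH]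
  rcases hv with rfl | rfl | rfl
  · exact key _ _ _ x1 y1 z1
  · exact key _ _ _ x2 y2 z2
  · exact key _ _ _ x3 y3 z3

theorem stT_sound {T : ℕ} {l : List ℕ} (h : stT T l = true) : ∀ k ∈ l, st1 (kf T k) = true := by
  induction l with
  | nil => intro x hx; cases hx
  | cons y l ih =>
      have h' : andB (st1 (kf T y)) (stT T l) = true := h
      rw [andB_iff] at h'
      intro x hx
      rcases List.mem_cons.1 hx with rfl | hx
      · exact h'.1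
      · exact ih h'.2 x hx

/-- THE STATIC TESTS -/
theorem chkSt_sound {KTs : List K2} {l : List ℕ} (h : chkSt KTs l = true) :
    ∀ T ∈ KTs, ∀ k ∈ l, ∀ v : Fin 3 → ℂ, v 0 = 0 →
      ev (sc (2 ^ 20) (kz (kf T.s k))) v ≤ -(1 / 2 ^ 10) * nrm v ∧
      ev (sc (2 ^ 20) (kz (kf T.t k))) v ≤ -(1 / 2 ^ 10) * nrm v := by
  induction KTs with
  | nil => intro x hx; cases hx
  | cons y KTs ih =>
      have h' : andB (stT y.s l) (andB (stT y.t l) (chkSt KTs l)) = true := h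
      simp only [andB_iff] at h'
      intro x hx
      rcases List.mem_cons.1 hx with rfl | hx
      · intro k hk v hv
        exact ⟨st1_ev (stT_sound h'.1 k hk) hv, st1_ev (stT_sound h'.2.1 k hk) hv⟩
      · exact ih h'.2.2 x hx

/-- the real linear functional of a slit test -/
def slR (ST k : ℕ) (t : ℤ) (v : Fin 3 → ℂ) : ℝ :=
  ((((((u32 ST k : ℤ) - 2 ^ 31 : ℤ) / 2 ^ 20 : ℝ) : ℂ) +
    (((((u32 ST (k + 32) : ℤ) - 2 ^ 31 : ℤ) / 2 ^ 20 : ℝ)) : ℂ) * I) * conj (v 0) *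
        (v 0 + 2 * v 1 + 2 * ((t / 2 ^ 48 : ℝ) : ℂ) * v 2)).re

theorem u32_sub_bd (K k : ℕ) : |(u32 K k : ℤ) - 2 ^ 31| ≤ 2 ^ 31 := by
  have h := u32_lt K k
  have h1 : (u32 K k : ℤ) < 2 ^ 32 := by exact_mod_cast h
  have h2 : (0 : ℤ) ≤ u32 K k := by positivity
  exact abs_le.2 ⟨by linarith, by linarith⟩

theorem sl2_ev {ST k n K : ℕ} {t : ℤ} (ht : Rep M2 n t) (bt : |t| ≤ 2 ^ 100)
    (h : sl2 (v32 ST k) (v32 ST (k + 32)) n K = true) (v : Fin 3 → ℂ) :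
    ev (sc (2 ^ 20) (kz K)) v + (1 / 2 ^ 38) * nrm v ≤ slR ST k t v :=
  slF_ev (sl2_pd (v32_rep ST k) (v32_rep ST (k + 32)) ht (u32_sub_bd _ _) (u32_sub_bd _ _) bt h) v

theorem slT_sound {T : K2} {ST : ℕ} {l : List LE} (h : slT T ST l = true) : ∀ x ∈ l,
    sl2 (v32 ST (128 * x.l)) (v32 ST (128 * x.l + 32)) x.t (kf T.s x.k) = true ∧
    sl2 (v32 ST (128 * x.l + 64)) (v32 ST (128 * x.l + 96)) x.t (kf T.t x.k) = true := by
  induction l with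
  | nil => intro x hx; cases hx
  | cons y l ih =>
      have h' : andB (sl2 (v32 ST (128 * y.l)) (v32 ST (128 * y.l + 32)) y.t (kf T.s y.k))
        (andB (sl2 (v32 ST (128 * y.l + 64)) (v32 ST (128 * y.l + 96)) y.t (kf T.t y.k))
        (slT T ST l)) = true := h
      simp only [andB_iff] at h'
      intro x hx
      rcases List.mem_cons.1 hx with rfl | hx
      · exact ⟨h'.1, h'.2.1⟩
      · exact ih h'.2.2 x hx

/-- THE SLIT TESTS -/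
theorem chkSl_sound {KTs : List K2} {ST : ℕ} {l : List LE} (h : chkSl KTs ST l = true) :
    ∀ T ∈ KTs, ∀ x ∈ l, ∀ t : ℤ, Rep M2 x.t t → |t| ≤ 2 ^ 100 → ∀ v : Fin 3 → ℂ,
      ev (sc (2 ^ 20) (kz (kf T.s x.k))) v + (1 / 2 ^ 38) * nrm v ≤ slR ST (128 * x.l) t v ∧
      ev (sc (2 ^ 20) (kz (kf T.t x.k))) v + (1 / 2 ^ 38) * nrm v ≤
        slR ST (128 * x.l + 64) t v := by
  induction KTs with
  | nil => intro x hx; cases hx
  | cons y KTs ih =>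
      have h' : andB (slT y ST l) (chkSl KTs ST l) = true := h
      rw [andB_iff] at h'
      intro T hT
      rcases List.mem_cons.1 hT with rfl | hT
      · intro x hx t ht bt v
        obtain ⟨s1, s2⟩ := slT_sound h'.1 x hx
        exact ⟨sl2_ev ht bt s1 v, sl2_ev ht bt s2 v⟩
      · exact ih h'.2 T hT

end Pool.Agent.Helper17.PAK
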