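import Pool.Agent.Helper17.C75.Kp8

/-! Row KPD of the kernel checker for MP_c75db0: the test of the L vectors. -/

set_option autoImplicit false
noncomputable section
namespace Pool.Agent.Helper17.PAK

open Pool.Agent.Helper86.CX
open Complex ComplexConjugate

theorem vpq_640 : vpq 640 640 = ![1, 1, 1] := by
  unfold vpq
  norm_num

/-- THE TESTS OF `(1, 1, 1)` -/
theorem chkL_sound {KT : K2} {LT : ℕ} {b : List BE} {Pa Pc Pb : P9} {Qa Qc Qb : Hm ℤ}
    (ha : EncP Pa Qa) (hc : EncP Pc Qc) (hb : EncP Pb Qb)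
    (qa : Bd (2 ^ 2200) Qa) (qc : Bd (2 ^ 2200) Qc) (qb : Bd (2 ^ 2200) Qb)
    (h : chkL KT LT b Pa Pc Pb = true) {t : ℝ} (t0 : 0 ≤ t) (t1 : t ≤ 1) :
    0 < ev (combH t (sc (2 ^ 70) Qa) (sc (2 ^ 70) Qc) (sc (2 ^ 70) Qb)) ![1, 1, 1] := by
  unfold chkL tsl at h
  simp only [andB_iff] at h
  obtain ⟨h1, h2, h3⟩ := h
  have p : (0 : ℝ) < 2 ^ 70 := by positivity
  have x := stv_ev ha qa (by norm_num) (by norm_num) h1 p
  have y := stv_ev hc qc (by norm_num) (by norm_num) h2 p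
  have z := stv_ev hb qb (by norm_num) (by norm_num) h3 p
  rw [ev_combH, ← vpq_640]
  have ht : 0 ≤ 1 - t := by linarith
  rcases eq_or_lt_of_le t0 with h | h
  · rw [← h]; simpa using x
  · have k1 : 0 < t ^ 2 * ev (sc (2 ^ 70) Qb) (vpq 640 640) := by positivity
    have k2 : 0 ≤ (1 - t) ^ 2 * ev (sc (2 ^ 70) Qa) (vpq 640 640) := by positivity
    have k3 : 0 ≤ 2 * t * (1 - t) * ev (sc (2 ^ 70) Qc) (vpq 640 640) := by positivity
    linarith

end Pool.Agent.Helper17.PAK
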