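import Pool.Agent.Helper17.C75.Canon

/-!
Run lists of canonical words (work file for `MP_c75db0_gt`, not imported by any hand-in).

State `(x, y, f)`: `x y` are the last two letters of the word read so far, `f` says that the last run
is full.  The next run lies in the star of the letters `y` and `third x y`, i.e. in the star `x`, of
order `M x`; a run of length `m` (it starts with the letter `y` already read) appends the letters
`alt (third x y) y (m-1)`.
-/

set_option autoImplicit false

namespace C75

variable (M : Fin 3 → ℕ)

/-- a word that can be read from the state `(x,y,f)`; the last run may be cut -/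
inductive Acc : Fin 3 → Fin 3 → Bool → List (Fin 3) → Prop
  | last (x y : Fin 3) (f : Bool) (k : ℕ) (h : M x = 0 ∨ k + 1 ≤ M x) :
      Acc x y f (alt (third x y) y k)
  | step (x y : Fin 3) (f : Bool) (m : ℕ) (r : List (Fin 3)) (h2 : 2 ≤ m)
      (hf : f = true → 3 ≤ m) (hm : M x = 0 ∨ m ≤ M x) (hr : r ≠ [])
      (h : Acc (nx y (third x y) (m - 2)) (nx y (third x y) (m - 1)) (decide (m = M x)) r) :
      Acc x y f (alt (third x y) y (m - 1) ++ r)

/-- longest alternating prefix -/
theorem maxalt (a b : Fin 3) : ∀ r : List (Fin 3), ∃ (k : ℕ) (r' : List (Fin 3)),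
    r = alt a b k ++ r' ∧ (r' = [] ∨ ∃ e t, r' = e :: t ∧ e ≠ nx a b k) := by
  intro r
  induction r generalizing a b with
  | nil => exact ⟨0, [], rfl, Or.inl rfl⟩
  | cons c r ih =>
    by_cases h : c = a
    · subst h
      obtain ⟨k, r', h1, h2⟩ := ih b c
      refine ⟨k + 1, r', ?_, ?_⟩
      · rw [h1]; rfl
      · exact h2
    · exact ⟨0, c :: r, rfl, Or.inr ⟨c, r, rfl, h⟩⟩

theorem decode_aux (M : Fin 3 → ℕ) : ∀ n : ℕ, ∀ (pre : List (Fin 3)) (x y : Fin 3) (f : Bool)
    (r : List (Fin 3)), r.length ≤ n → x ≠ y → (∃ q, pre = q ++ [y]) →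
    (f = true → ∃ q a b, a ≠ b ∧ M (third a b) ≠ 0 ∧ third a b = third x y ∧
      nx a b (M (third a b)) = x ∧ pre = q ++ alt a b (M (third a b))) →
    (r = [] ∨ ∃ t, r = third x y :: t) → Good M (pre ++ r) → Acc M x y f r := by
  intro n
  induction n with
  | zero =>
    intro pre x y f r hr _ _ _ _ _
    have : r = [] := List.length_eq_zero_iff.1 (by omega)
    subst this
    by_cases h0 : M x = 0
    · exact Acc.last x y f 0 (Or.inl h0)
    · exact Acc.last x y f 0 (Or.inr (by omega))
  | succ n ih =>
    intro pre x y f r hr hxy hpre hfull hhead hg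
    rcases hhead with h0 | ⟨t, ht⟩
    · subst h0
      by_cases h0 : M x = 0
      · exact Acc.last x y f 0 (Or.inl h0)
      · exact Acc.last x y f 0 (Or.inr (by omega))
    obtain ⟨q, hq⟩ := hpre
    have hcy : third x y ≠ y := third_ne_right x y hxy
    have hstar : third y (third x y) = x := third_third' x y
    obtain ⟨k, r', hk, hr'⟩ := maxalt (third x y) y r
    -- the run y c y c ... has length k+1
    have hk1 : 1 ≤ k := by
      rcases k with _ | k
      · exfalso
        rcases hr' with h | ⟨e, t', h, he⟩
        · rw [ht] at hk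
          rw [h] at hk
          simp [alt] at hk
        · rw [ht] at hk
          rw [h] at hk
          simp only [alt, List.nil_append, List.cons.injEq] at hk
          exact he hk.1.symm
      · omega
    have hrun : pre ++ r = q ++ alt y (third x y) (k + 1) ++ r' := by
      rw [hq, hk]
      simp [alt]
    have hlen : M x = 0 ∨ k + 1 ≤ M x := by
      by_contra hcon
      push Not at hcon
      obtain ⟨h1, h2⟩ := hcon
      have hp : alt y (third x y) (M x + 1) <+: alt y (third x y) (k + 1) :=
        alt_prefix _ _ _ _ (by omega)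
      refine hg.len y (third x y) hcy.symm (by rw [hstar]; exact h1) ?_
      rw [hstar]
      obtain ⟨z, hz⟩ := hp
      refine ⟨q, z ++ r', ?_⟩
      rw [hrun, ← hz]; simp
    rcases hr' with h | ⟨e, t', h, he⟩
    · subst h
      rw [hk, List.append_nil]
      exact Acc.last x y f k hlen
    · -- a further run
      obtain ⟨j, rfl⟩ : ∃ j, k = j + 1 := ⟨k - 1, by omega⟩
      have hne1 : e ≠ nx y (third x y) (j + 2) := he
      have hne2 : e ≠ nx y (third x y) (j + 1) := by
        intro heq
        refine hg.sq e ?_
        refine ⟨q ++ alt y (third x y) (j + 1), t', ?_⟩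
        rw [hrun, h, alt_succ y (third x y) (j + 1), ← heq]; simp
      have hnn : nx y (third x y) (j + 1) ≠ nx y (third x y) (j + 2) := nx_ne _ _ _ hcy.symm
      have he3 : e = x := by
        have h1 := eq_third _ _ e hnn hne2 hne1
        rw [h1, third_nx, hstar]
      have hx' : nx y (third x y) j = nx y (third x y) (j + 2) := (nx_two _ _ _).symm
      have hst : third (nx y (third x y) j) (nx y (third x y) (j + 1)) = x := by
        rw [third_nx, hstar]
      rw [hk, h]
      have hj : j + 1 = (j + 2) - 1 := by omega
      rw [hj]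
      refine Acc.step x y f (j + 2) (e :: t') (by omega) ?_ hlen (by simp) ?_
      · -- no run of length 2 after a full run
        intro hf
        by_contra hlt
        have hj0 : j = 0 := by omega
        subst hj0
        obtain ⟨q', a, b, hab, hm, h3, h4, h5⟩ := hfull hf
        refine hg.can a b hab hm ?_
        refine ⟨q', t', ?_⟩
        have : pre ++ r = q' ++ alt a b (M (third a b)) ++ (third x y :: x :: t') := by
          rw [h5, hk, h, he3]; rfl
        rw [this, h4, ← h3]; simp
      · have hsub1 : j + 2 - 2 = j := by omega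
        have hsub2 : j + 2 - 1 = j + 1 := by omega
        rw [hsub1, hsub2]
        refine ih (pre ++ alt (third x y) y (j + 1)) _ _ _ (e :: t') ?_ ?_ ?_ ?_ ?_ ?_
        · have : r.length = (j + 1) + (e :: t').length := by
            rw [hk, h, List.length_append, alt_length]
          omega
        · exact nx_ne _ _ _ hcy.symm
        · refine ⟨q ++ alt y (third x y) (j + 1), ?_⟩
          have : pre ++ alt (third x y) y (j + 1) = q ++ alt y (third x y) (j + 2) := by
            rw [hq]; simp [alt]
          rw [this, alt_succ y (third x y) (j + 1)]; simp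
        · intro hfl
          have hM : j + 2 = M x := by simpa using hfl
          refine ⟨q, y, third x y, hcy.symm, ?_, ?_, ?_, ?_⟩
          · rw [hstar]; omega
          · rw [third_nx]
          · rw [hstar, ← hM, hx']
          · rw [hstar, ← hM, hq]; simp [alt]
        · right; exact ⟨t', by rw [hst, he3]⟩
        · have : pre ++ alt (third x y) y (j + 1) ++ e :: t' = pre ++ r := by
            rw [hk, h]; simp
          rw [this]; exact hg

/-- a canonical word is read from a state without flag -/
theorem decode (w : List (Fin 3)) (y : Fin 3) (hg : Good M (y :: w)) :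
    ∃ x, x ≠ y ∧ Acc M x y false w := by
  rcases w with _ | ⟨c, w⟩
  · refine ⟨y + 1, ?_, ?_⟩
    · clear hg; revert y; decide
    · by_cases h0 : M (y + 1) = 0
      · exact Acc.last _ y false 0 (Or.inl h0)
      · exact Acc.last _ y false 0 (Or.inr (by omega))
  · have hyc : y ≠ c := by
      intro h
      refine hg.sq y ?_
      exact ⟨[], w, by rw [← h]; rfl⟩
    refine ⟨third y c, third_ne_left y c hyc, ?_⟩
    refine decode_aux M (c :: w).length [y] (third y c) y false (c :: w) (le_refl _)
      (third_ne_left y c hyc) ⟨[], rfl⟩ (by intro h; exact absurd h (by decide)) ?_ hg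
    right
    exact ⟨w, by rw [third_comm (third y c) y, third_third'']⟩

/-- the word with the run list `ms` read from the state `(x,y)` -/
def spell : Fin 3 → Fin 3 → List ℕ → List (Fin 3)
  | _, _, [] => []
  | x, y, m :: ms => alt (third x y) y (m - 1) ++
      spell (nx y (third x y) (m - 2)) (nx y (third x y) (m - 1)) ms

/-- admissible run lists from the state `(x,y,f)`: complete runs -/
def Runs : Fin 3 → Fin 3 → Bool → List ℕ → Prop
  | _, _, _, [] => True
  | x, y, f, m :: ms => 2 ≤ m ∧ (f = true → 3 ≤ m) ∧ (M x = 0 ∨ m ≤ M x) ∧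
      Runs (nx y (third x y) (m - 2)) (nx y (third x y) (m - 1)) (decide (m = M x)) ms

/-- the final state -/
def fin : Fin 3 → Fin 3 → List ℕ → Fin 3 × Fin 3
  | x, y, [] => (x, y)
  | x, y, m :: ms => fin (nx y (third x y) (m - 2)) (nx y (third x y) (m - 1)) ms

/-- explicit form: complete runs, then a cut run of `k` further letters -/
theorem acc_runs {x y : Fin 3} {f : Bool} {w : List (Fin 3)} (h : Acc M x y f w) :
    ∃ (ms : List ℕ) (k : ℕ), Runs M x y f ms ∧
      (M (fin x y ms).1 = 0 ∨ k + 1 ≤ M (fin x y ms).1) ∧
      w = spell x y ms ++ alt (third (fin x y ms).1 (fin x y ms).2) (fin x y ms).2 k := by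
  induction h with
  | last x y f k h => exact ⟨[], k, trivial, h, rfl⟩
  | step x y f m r h2 hf hm hr h ih =>
    obtain ⟨ms, k, h3, h4, h5⟩ := ih
    refine ⟨m :: ms, k, ⟨h2, hf, hm, h3⟩, h4, ?_⟩
    rw [h5]
    simp [spell, fin]

section grp

variable {G : Type*} [Group G] (s : Fin 3 → G)

/-- **Main statement.**  Every word equals, as a group element, the empty word or a word `y w` with
`w` spelled by an admissible run list followed by a cut run. -/
theorem run_list (hs : ∀ x, s x * s x = 1)
    (hM : ∀ x y, x ≠ y → (s x * s y) ^ M (third x y) = 1) (w : List (Fin 3)) :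
    wp s w = 1 ∨ ∃ (x y : Fin 3) (ms : List ℕ) (k : ℕ), x ≠ y ∧ Runs M x y false ms ∧
      (M (fin x y ms).1 = 0 ∨ k + 1 ≤ M (fin x y ms).1) ∧
      wp s w = wp s (y :: (spell x y ms ++
        alt (third (fin x y ms).1 (fin x y ms).2) (fin x y ms).2 k)) := by
  obtain ⟨w', h1, _, h3⟩ := canonical M s hs hM w
  rcases w' with _ | ⟨y, v⟩
  · left; rw [← h1]; rfl
  · right
    obtain ⟨x, hx, ha⟩ := decode M v y h3
    obtain ⟨ms, k, h4, h5, h6⟩ := acc_runs M ha
    exact ⟨x, y, ms, k, hx, h4, h5, by rw [← h1, h6]⟩

end grp

end C75
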